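import Pool.Agent.Helper42.RD.Goals1
import Pool.Agent.Helper51.RP.Goals1

/-!
# Project RD (MP_fc6b1e_nt), part E: the extensions `N/K` and the final statement

`a = ∏_σ σ(b)^(n(σ⁻¹)) ∈ K₁ = K(ε)` is a Kummer generator of `N(ε)/K(ε)`.
-/

namespace Pool.Agent.Helper42.RD

open NumberField Polynomial Module IsDedekindDomain TensorProduct Pool.Agent.Helper51.SigLeo
open Pool.Agent.Helper51.RP

/-- **E_TRF** (transfer). Let `M₁/M` be Galois of degree prime to `p`, `W` a prime of `M₁` above the prime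
`w` of `M`. For `x ∈ M`: `p ∣ ord_W(x)` iff `p ∣ ord_w(x)`, and `LocPow p W x` iff `LocPow p w x`.

PROOF. The ramification index `e` and the residue degree `f` of `W/w` divide `[M₁ : M]`
(`Ideal.ncard_primesOver_mul_ramificationIdxIn_mul_inertiaDegIn`), so they are prime to `p`;
`ord_W(x) = e ord_w(x)` (`HeightOneSpectrum.valuation_liesOver`), which gives the first claim and the
implication from `w` to `W` in the second. Let `x ∈ M`, `y ∈ M₁` with `W(x y^p - 1) > 0` (so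
`x, y ≠ 0`). `ord_W(x) = -p ord_W(y)`, so `ord_w(x) = p n`, `n ∈ ℤ`. Let `π ∈ M` with
`ord_w(π) = 1`, `x' = x π^(-p n)`, `y' = y π^n`: `x' y'^p = x y^p`, `ord_w(x') = 0`, `ord_W(y') = 0`. Choose
`x'' ∈ 𝓞_M` with `w(x' - x'') > 0` and `y'' ∈ 𝓞_{M₁}` with `W(y' - y'') > 0`
(`exists_valuation_sub_lt_of_integer` or similar). In `κ_W = 𝓞_{M₁}/W`, an extension of degree `f` of
`κ_w = 𝓞_M/w`: `x'' y''^p = 1`. The norm `κ_W → κ_w` gives `x''^f N(y'')^p = 1`. Choose `n, n' ∈ ℕ` with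
`n f = 1 + p n'`; then `x'' (x''^(n') N(y'')^n)^p = 1` in `κ_w`. Lift `x''^(n') N(y'')^n` to
`z ∈ 𝓞_M`: `w(x' z^p - 1) > 0` and `x' z^p = x (π^(-n) z)^p`. -/
def E_TRF : Prop :=
  ∀ (p : ℕ) [Fact p.Prime] (M M₁ : Type) [Field M] [NumberField M] [Field M₁] [NumberField M₁]
    [Algebra M M₁] [IsGalois M M₁], (finrank M M₁).Coprime p →
  ∀ (W : HeightOneSpectrum (𝓞 M₁)) (w : HeightOneSpectrum (𝓞 M)), Above W w →
    (∀ x : M, (p : ℤ) ∣ ordv W (algebraMap M M₁ x) ↔ (p : ℤ) ∣ ordv w x) ∧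
    ∀ x : M, LocPow p W (algebraMap M M₁ x) ↔ LocPow p w x

/-- **E_TOW** (the degrees in the tower).

PROOF. `M₁/M`, `M₁/K₁` are Galois (`IsGalois.tower_top_of_isScalarTower`). Restriction to `K₁` (normal over
`K`) is a homomorphism `Gal(M₁/M) → Gal(K₁/K)`, injective by `lin`; `Gal(K₁/K) → (ZMod p)ˣ`,
`σ ↦ n` with `σ ε = ε^n`, is an injective homomorphism by `gen`. So `[M₁ : M]` divides `[K₁ : K]`, which
divides `p - 1`, prime to `p`. Restriction to `M` is an injective homomorphism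
`Gal(M₁/K₁) → Gal(M/K)`, so `[M₁ : K₁]` divides `[M : K]`, prime to `p`. If `p = 2` then `[M₁ : K₁]` is
odd and `> 1`. Last claim: let `g ∈ Gal(M₁/K₁)` preserve the valuation of `W`; the restriction
`g' ∈ Gal(M/K)` of `g` preserves the valuation of `w` (on `M` the valuation of `W` is a positive power
of that of `w`, `HeightOneSpectrum.valuation_liesOver`), so `g' = 1`; `g` is trivial on `M` and `K₁`, so
`g = 1` by `lin`. -/
def E_TOW : Prop :=
  ∀ (p : ℕ) [Fact p.Prime] (K M K₁ M₁ : Type) [Field K] [NumberField K] [Field M] [NumberField M]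
    [Field K₁] [NumberField K₁] [Field M₁] [NumberField M₁] [Algebra K M] [Algebra K K₁]
    [Algebra K M₁] [Algebra M M₁] [Algebra K₁ M₁] [IsScalarTower K M M₁] [IsScalarTower K K₁ M₁]
    [IsGalois K M] [IsGalois K K₁] [IsGalois K M₁] (ε : K₁), Tower p K M K₁ M₁ ε →
  IsGalois M M₁ ∧ IsGalois K₁ M₁ ∧ (finrank M M₁).Coprime p ∧ (finrank K₁ M₁).Coprime p ∧
    (p = 2 → 3 ≤ finrank K₁ M₁) ∧
    ∀ (W : HeightOneSpectrum (𝓞 M₁)) (w : HeightOneSpectrum (𝓞 M)), Above W w → FreeP K w →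
      FreeP K₁ W

/-- **E_MAT.** If `a` matches the datum then `Sel(a) ⊆ SelD`.

PROOF (from `RP.S_NSP`, `E_TRF`). *pol* and *sig* are the same. Let `w ∉ R`. If `w` has nontrivial
decomposition group, `p ∣ ord_w(x)` by `RP.S_NSP`. Otherwise let `W` be a prime of `M₁` above `w`;
`p ∣ ord_W(a)` by `Match.free`, so `p ∣ ord_W(x)` by `Sel.loc`, and `p ∣ ord_w(x)` by `E_TRF`. Let
`w ∈ R`, `α = al w`, and let `W` be given by `Match.ram`. `Tame p W a x` gives `i`, `y` with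
`x a*^i y^p ≡ 1 mod W`, `a* = (-1)^(p-1) a`; `Match.ram` gives `j`, `z` with `a* α^j z^p ≡ 1`. So
`x α^(-i j) (y z^(-i))^p ≡ 1`, that is `LocPow p W (x α^((p-1) i j))` (`α^(-i j) = α^((p-1) i j) (α^(-i j))^p`),
and `LocPow p w (x α^((p-1) i j))` by `E_TRF`. -/
def E_MAT : Prop :=
  ∀ (p : ℕ) [Fact p.Prime] (k : Type) [NormedField k] [NormedAlgebra ℚ_[p] k] (L : IwasawaLog p k)
    (K M M₁ : Type) [Field K] [NumberField K] [Field M] [NumberField M] [Field M₁] [NumberField M₁]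
    [Algebra K M] [Algebra M M₁] [IsGalois K M] [IsGalois M M₁], (finrank M M₁).Coprime p →
  ∀ (m : ℕ) (δ : M ≃ₐ[K] M) (ζ : k) (Φ : ℤ_[p][X]) (P : (ZMod p)[X]), PhiData p m ζ Φ P →
    orderOf δ = m → finrank K M = m →
  ∀ (T : Set (K →+* k)) (R : Set (HeightOneSpectrum (𝓞 M))) (al : HeightOneSpectrum (𝓞 M) → K),
    IsDat p R al → ∀ a : M₁, a ≠ 0 → Match p R al a →
  ∀ x : Mˣ, Sel L (above T) P δ a x → SelD L (above T) P δ R al x

/-- **E_BEX** (choice of `b`). Let `K₁` be totally complex, `M₁/K₁` Galois of degree `m₁ > 1` (`≥ 3` if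
`p = 2`), `𝔫` a nonzero ideal of `𝓞_{K₁}` and `β ∈ 𝓞_{K₁}`, `β ≠ 0`. There is `b ∈ 𝓞_{K₁}`, `b ≠ 0`,
`b ≡ 1 mod 𝔫`, such that `p ∣ ord_Q(β b)` for all primes `Q` of `K₁`, prime to `𝔫`, above which there is a
prime of `M₁` with trivial decomposition group in `Gal(M₁/K₁)`.

PROOF. Call a prime `Q` of `K₁` harmless if some prime of `M₁` above it has nontrivial decomposition group
(then all of them do, as they are conjugate). Let `V` be the `F_p`-vector space of the finitely supported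
functions from the set of the primes `Q` prime to `𝔫` to `F_p`, with basis `e_Q`; for `c ∈ 𝓞_{K₁}`, `c ≠ 0`, let
`div(c) = ∑_Q ord_Q(c) e_Q`. Let `V₀` be the span of the `e_Q`, `Q` harmless, and of the `div(c)`, `c ≠ 0`,
`c ≡ 1 mod 𝔫`. CLAIM: `V₀ = V`. Suppose not; there is a linear form `φ : V → F_p`, zero on `V₀`, with
`φ(e_Q) ≠ 0` for some `Q`. Define `ψ(I) = φ(∑_Q ord_Q(I) e_Q)` for nonzero ideals `I` (`0` for `I = 0`). Then
`IsPsi p 𝔫 ψ`. By `RSP.SP_HLF` the primes `Q` prime to `𝔫` with `ψ(Q) ≠ 0` satisfy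
`∑ N(Q)^(-s) ≥ (1 - 1/p) log(1/(s-1)) - C`. Such a `Q` is not harmless: all the primes of `M₁` above it
have trivial decomposition group, so there are `m₁` of them, of norm `N(Q)` (`∑ e f = m₁`); those above
different `Q` are different. So
`m₁ ((1 - 1/p) log(1/(s-1)) - C) ≤ ∑_W N(W)^(-s) ≤ log(1/(s-1)) + C'` (`RS.S_PSM` for `M₁`), and
`m₁ (1 - 1/p) > 1` (`m₁ ≥ 2`, `p ≥ 3`: `≥ 4/3`; `m₁ ≥ 3`, `p = 2`: `≥ 3/2`): a contradiction for
`s → 1+`. So `-div(β) = ∑ c_i e_{Q_i} + ∑_j d_j div(b_j)`, finite sums, `Q_i` harmless; let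
`b = ∏ b_j^(d_j)` with `d_j` lifted to `ℕ`: `b ≠ 0`, `b ≡ 1 mod 𝔫` and `div(β b) = -∑ c_i e_{Q_i}`, so
`p ∣ ord_Q(β b)` for the `Q` prime to `𝔫` which are not harmless. -/
def E_BEX : Prop :=
  ∀ (p : ℕ) [Fact p.Prime] (K₁ M₁ : Type) [Field K₁] [NumberField K₁] [IsTotallyComplex K₁]
    [Field M₁] [NumberField M₁] [Algebra K₁ M₁] [IsGalois K₁ M₁], 1 < finrank K₁ M₁ →
    (p = 2 → 3 ≤ finrank K₁ M₁) →
  ∀ 𝔫 : Ideal (𝓞 K₁), 𝔫 ≠ ⊥ → ∀ β : 𝓞 K₁, β ≠ 0 →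
  ∃ b : 𝓞 K₁, b ≠ 0 ∧ b - 1 ∈ 𝔫 ∧
    ∀ (W : HeightOneSpectrum (𝓞 M₁)) (Q : HeightOneSpectrum (𝓞 K₁)), Above W Q → FreeP K₁ W →
      Q.asIdeal ⊔ 𝔫 = ⊤ → (p : ℤ) ∣ ordv Q ((β * b : 𝓞 K₁) : K₁)

/-- **E_NFI.** Let `K₁/K` and `M₁/K₁` be Galois, `[M₁ : K₁] > 1`. For every finite set `Z` of primes of `K₁`
there is a prime `Q ∉ Z` with trivial decomposition group in `Gal(K₁/K)`, above which there is a prime of
`M₁` with nontrivial decomposition group in `Gal(M₁/K₁)`.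

PROOF. For each `g ≠ 1` in `Gal(K₁/K)` choose `θ_g ∈ 𝓞_{K₁}` with `g θ_g ≠ θ_g`; let `Z'` be the union of
`Z` and of the finite set of the primes dividing one of the `g θ_g - θ_g`. A prime `Q ∉ Z'` whose norm is a
prime number has trivial decomposition group in `Gal(K₁/K)`: if `g ≠ 1` preserves the valuation of `Q`, it
acts trivially on `𝓞_{K₁}/Q`, a field with a prime number of elements, so `g θ_g - θ_g ∈ Q`. Suppose that
for all these `Q` all the primes of `M₁` above `Q` have trivial decomposition group in `Gal(M₁/K₁)`; there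
are `m₁ = [M₁ : K₁]` of them, of norm `N(Q)`. So `m₁ ∑_Q N(Q)^(-s) ≤ ∑_W N(W)^(-s)`, the sum over these
`Q`, which is `≥ log(1/(s-1)) - C` by `RS.S_PSM` and `RS.S_DG1` for `K₁`; the right side is
`≤ log(1/(s-1)) + C` by `RS.S_PSM` for `M₁`: a contradiction for `s → 1+` as `m₁ ≥ 2`. -/
def E_NFI : Prop :=
  ∀ (K K₁ M₁ : Type) [Field K] [NumberField K] [Field K₁] [NumberField K₁] [Field M₁]
    [NumberField M₁] [Algebra K K₁] [Algebra K₁ M₁] [IsGalois K K₁] [IsGalois K₁ M₁],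
    1 < finrank K₁ M₁ → ∀ Z : Set (HeightOneSpectrum (𝓞 K₁)), Z.Finite →
  ∃ Q : HeightOneSpectrum (𝓞 K₁), Q ∉ Z ∧ FreeP K Q ∧
    ∃ W : HeightOneSpectrum (𝓞 M₁), Above W Q ∧ ¬ FreeP K₁ W

/-- **E_OMG** (elements of type `ω`). Let `K₁/K` be Galois, `ε ∈ K₁` a primitive `p`-th root of unity, and
`b ∈ 𝓞_{K₁}`, `b ≠ 0`. There is `a ∈ 𝓞_{K₁}`, `a ≠ 0`, of type `ω`, such that: `a ≡ 1 mod p³` if `b` is; if
`p ∣ ord_{Q'}(b)` for all conjugates `Q'` of `Q` over `K` then `p ∣ ord_Q(a)`; if `Q` has trivial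
decomposition group in `Gal(K₁/K)` and `b ≡ 1 mod Q'` for all the conjugates `Q' ≠ Q` of `Q`, then
`a/b ≡ 1 mod Q`.

PROOF. For `σ ∈ G = Gal(K₁/K)` let `n(σ) ∈ ℕ` with `σ ε = ε^(n(σ))`, `n(1) = 1`; then
`n(σ τ) ≡ n(σ) n(τ) mod p` (`ε` is primitive). Put `a = ∏_{σ ∈ G} σ(b)^(n(σ⁻¹))`. For `τ ∈ G`,
`τ(a) = ∏_σ (τ σ)(b)^(n(σ⁻¹)) = ∏_ρ ρ(b)^(n(ρ⁻¹ τ))`, and `n(ρ⁻¹ τ) = n(ρ⁻¹) n(τ) + p k_ρ` with
`k_ρ ∈ ℤ`, so `τ(a) = a^(n(τ)) c^p`, `c = ∏_ρ ρ(b)^(k_ρ) ∈ K₁`: type `ω`. `a ≡ 1 mod p³` because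
`σ(b) ≡ 1 mod p³`. `ord_Q(σ b) = ord_{Q'}(b)` for the conjugate `Q'` with
`Q'.valuation y = Q.valuation (σ y)`: the second property. Third: `a/b = ∏_{σ ≠ 1} σ(b)^(n(σ⁻¹))`, and for
`σ ≠ 1` the conjugate `Q'` is different from `Q`, so `Q.valuation (σ b - 1) = Q'.valuation (b - 1) < 1`. -/
def E_OMG : Prop :=
  ∀ (p : ℕ) [Fact p.Prime] (K K₁ : Type) [Field K] [NumberField K] [Field K₁] [NumberField K₁]
    [Algebra K K₁] [IsGalois K K₁] (ε : K₁), IsPrimitiveRoot ε p →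
  ∀ b : 𝓞 K₁, b ≠ 0 →
  ∃ a : 𝓞 K₁, a ≠ 0 ∧ OmType p K ε (a : K₁) ∧
    ((p : 𝓞 K₁) ^ 3 ∣ b - 1 → (p : 𝓞 K₁) ^ 3 ∣ a - 1) ∧
    (∀ Q : HeightOneSpectrum (𝓞 K₁),
      (∀ Q' : HeightOneSpectrum (𝓞 K₁), ConjP K Q' Q → (p : ℤ) ∣ ordv Q' (b : K₁)) →
      (p : ℤ) ∣ ordv Q (a : K₁)) ∧
    ∀ Q : HeightOneSpectrum (𝓞 K₁), FreeP K Q →
      (∀ Q' : HeightOneSpectrum (𝓞 K₁), ConjP K Q' Q → Q' ≠ Q →
        Q'.valuation K₁ ((b : K₁) - 1) < 1) →
      Q.valuation K₁ ((a : K₁) / b - 1) < 1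

/-- **E_SHF** (change of the prime for elements of type `ω`). Let `a ∈ K₁`, `a ≠ 0`, be of type `ω`, `Q₁` a
conjugate of `Q` over `K`, `c ∈ K`, and put `a* = (-1)^(p-1) a`. If `p ∤ ord_Q(a)` and `a* c^j` is locally
a `p`-th power at `Q` for some `j`, then the same holds at `Q₁` (with another `j`).

PROOF. Let `τ` with `Q₁.valuation (τ y) = Q.valuation y`. `τ ε = ε^n`, `τ a = a^n d^p`; `n` is prime to `p`
since `τ ε` is a primitive `p`-th root of unity. `ord_Q(a) = ord_{Q₁}(τ a) = n ord_{Q₁}(a) + p ord_{Q₁}(d)`, so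
`p ∤ ord_{Q₁}(a)` (`d ≠ 0` since `τ a ≠ 0`). Let `a* c^j y^p ≡ 1 mod Q`. Applying `τ`:
`τ(a*) c^j τ(y)^p ≡ 1 mod Q₁`, and `τ(a*) = (-1)^(p-1) a^n d^p = a*^n d^p` (`(-1)^((p-1)(n-1)) = 1`: `p - 1` is
even or `p = 2` and `n` is odd). So `a*^n c^j` is locally a `p`-th power at `Q₁`. Choose `n'` with
`n n' = 1 + p l`; `(a*^n c^j)^(n') = a* c^(j n') (a*^l)^p`. -/
def E_SHF : Prop :=
  ∀ (p : ℕ) [Fact p.Prime] (K K₁ : Type) [Field K] [Field K₁] [NumberField K₁] [Algebra K K₁]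
    (ε : K₁), IsPrimitiveRoot ε p → ∀ a : K₁, a ≠ 0 → OmType p K ε a →
  ∀ (Q Q₁ : HeightOneSpectrum (𝓞 K₁)), ConjP K Q₁ Q → ¬ (p : ℤ) ∣ ordv Q a →
  ∀ c : K, (∃ j : ℕ, LocPow p Q ((-1) ^ (p - 1) * a * (algebraMap K K₁ c) ^ j)) →
    ¬ (p : ℤ) ∣ ordv Q₁ a ∧ ∃ j : ℕ, LocPow p Q₁ ((-1) ^ (p - 1) * a * (algebraMap K K₁ c) ^ j)

/-- **E_EXA** (existence of `a`). For a datum `(R, α)` and a finite set `Z` of primes of `M₁` there is
`a ∈ 𝓞_{K₁}`, `a ≠ 0`, `a ≡ 1 mod p³`, of type `ω`, which matches the datum and whose valuation at some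
prime `W ∉ Z` of `M₁` is prime to `p`.

PROOF (from `E_TOW`, `E_TRF`, `E_BEX`, `E_NFI`, `E_OMG`, `E_SHF`). All the fields are totally complex. A
prime of `M₁` is above a unique prime of `M`, `K₁`, `K`; `Gal(M₁/K)` permutes transitively the primes of
`M₁`, `M`, `K₁` above a given prime of `K`, and automorphisms of `M` or `K₁` over `K` extend to `M₁`.

*Choices.* (1) For `w ∈ R` let `q = w ∩ 𝓞_K`; choose a prime `Q(q)` of `K₁` above `q`, depending only on `q`;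
the element `α_q = al w` depends only on `q` (`const`, transitivity). (2) By `E_NFI` (the degree
`[M₁ : K₁]` is `> 1`) there is a prime `Q₀` of `K₁`, not above `p`, not above a prime of `K` below `R`, not
below a prime of `Z`, `FreeP K Q₀`, and `W₀` above `Q₀` with `¬ FreeP K₁ W₀`. Let `F` be the finite set of the
primes of `K₁` above a prime of `K` below `R`, or conjugate to `Q₀`. (3) By the Chinese remainder theorem
choose `β ∈ 𝓞_{K₁}`: `β ≡ 1 mod p³`; at `Q = Q(q)`: `β/((-1)^(p-1) α_q) ≡ 1 mod Q`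
(take `t ∈ 𝓞_{K₁}` with `ord_Q(t - (-1)^(p-1) α_q) ≥ 2`, and `β ≡ t mod Q²`; `ord_Q(α_q) = 1`, see below);
`β ∈ Q₀`, `β ∉ Q₀²`; `β ≡ 1 mod Q'` for the other `Q' ∈ F`. `β ≠ 0`. (4) `𝔫 = p³ ∏_{Q' ∈ F} Q'²`; let `b₁` be given
by `E_BEX` for `𝔫`, `β`; `b = β b₁` has the properties of `β` in (3). (5) Let `a` be given by `E_OMG` for `b`.

*`FreeP K Q` for `Q = Q(q)`, and `ord_Q(α_q) = 1`.* As `w` has trivial decomposition group, `e(w/q) = f(w/q) = 1`
(see `D_ORB`), so `ord_q(α_q) = 1` and `κ_q = 𝓞_K/q` has `N(w)` elements, `p ∣ N(w) - 1`; so `κ_qˣ` contains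
`p` elements of order dividing `p`, and these are all such elements of `κ_Q`. Let `σ ∈ Gal(K₁/K)` preserve
`Q`; `σ ε = ε^n` and the image of `ε` in `κ_Q` is in `κ_q`, so `ε^n ≡ σ ε ≡ ε mod Q`. The `ε^i` are distinct
modulo `Q` (`∏_{0<i<p} (1 - ε^i) = p` is a unit at `Q`: `w ∤ p` by `copr`), so `σ ε = ε` and `σ = 1` by `gen`.
Hence `e(Q/q) = 1` and `ord_Q(α_q) = 1`.

*Match.free.* Let `W` be above `w`, `FreeP K w`, `w ∉ R`, `Q = W ∩ 𝓞_{K₁}`. By `E_TRF` for `M₁/K₁` and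
`E_OMG` it suffices that `p ∣ ord_{Q'}(b)` for all conjugates `Q'` of `Q`. Let `σ ∈ Gal(M₁/K)` with
`Q'` below `W' = σ W`, `w' = σ w`: `FreeP K w'`, `w' ∉ R`, `FreeP K₁ W'` by `E_TOW`. If `Q'` is prime to `𝔫`,
`p ∣ ord_{Q'}(β b₁)` by `E_BEX`. Otherwise `Q' ∣ p`, and `ord_{Q'}(b) = 0`; or `Q'` is above a prime `q` below
some `w'' ∈ R`: then `w'` is above `q`, conjugate to `w''`, so `w' ∈ R`, a contradiction; or `Q'` is
conjugate to `Q₀`: then `w'` is conjugate to `w₀ = W₀ ∩ 𝓞_M`, which satisfies `¬ FreeP K w₀` by `E_TOW`, a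
contradiction.

*Match.ram.* Let `w ∈ R`, `q`, `Q = Q(q)`, `α = α_q`; let `W` be any prime of `M₁` above `w`,
`Q₁ = W ∩ 𝓞_{K₁}`, a conjugate of `Q`. By `E_OMG` `a/b ≡ 1 mod Q`, so `a/((-1)^(p-1) α) ≡ 1 mod Q`; with
`a* = (-1)^(p-1) a`: `a*/α ≡ 1 mod Q`, `ord_Q(a) = 1`, and `LocPow p Q (a* α^(p-1))` (`y = α⁻¹`). By `E_SHF`
`p ∤ ord_{Q₁}(a)` and `LocPow p Q₁ (a* α^j)` for some `j`; by `E_TRF` for `M₁/K₁` the same holds at `W`.

*W₀.* By `E_OMG` `a/b ≡ 1 mod Q₀`, so `ord_{Q₀}(a) = ord_{Q₀}(b) = 1` and `p ∤ ord_{W₀}(a)` by `E_TRF`. -/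
def E_EXA : Prop :=
  ∀ (p : ℕ) [Fact p.Prime] (K M K₁ M₁ : Type) [Field K] [NumberField K] [IsTotallyComplex K]
    [Field M] [NumberField M] [Field K₁] [NumberField K₁] [Field M₁] [NumberField M₁]
    [Algebra K M] [Algebra K K₁] [Algebra K M₁] [Algebra M M₁] [Algebra K₁ M₁]
    [IsScalarTower K M M₁] [IsScalarTower K K₁ M₁] [IsGalois K M] [IsGalois K K₁] [IsGalois K M₁]
    (ε : K₁), Tower p K M K₁ M₁ ε →
  ∀ (R : Set (HeightOneSpectrum (𝓞 M))) (al : HeightOneSpectrum (𝓞 M) → K), IsDat p R al →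
  ∀ Z : Set (HeightOneSpectrum (𝓞 M₁)), Z.Finite →
  ∃ a : 𝓞 K₁, a ≠ 0 ∧ (p : 𝓞 K₁) ^ 3 ∣ a - 1 ∧ OmType p K ε (a : K₁) ∧
    Match p R al (algebraMap K₁ M₁ (a : K₁)) ∧
    ∃ W : HeightOneSpectrum (𝓞 M₁), W ∉ Z ∧ ¬ (p : ℤ) ∣ ordv W (algebraMap K₁ M₁ (a : K₁))

/-- **E_KUM** (Kummer descent). Let `Ω` be the algebraic closure of `K`, `ε ∈ Ω` a primitive `p`-th root of
unity, `a ∈ K(ε)` of type `ω`, not a `p`-th power in `K(ε)`. There is a Galois extension `N/K` of degree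
`p` in `Ω` such that the `p`-th roots of `a` are in `N(ε)`.

PROOF. Let `K₁ = K(ε)` (Galois over `K`), `s ∈ Ω`, `s^p = a`, `F = K₁(s)`. `[F : K₁] = p`
(`X^p - a` is irreducible over `K₁`), and `F/K₁` is Galois, `Gal(F/K₁) = ⟨γ⟩`, `γ s = ε s`. `F/K` is
Galois: for `τ ∈ Gal(Ω/K)`, `τ ε = ε^n`, `τ(s)^p = τ(a) = a^n c^p` with `c ∈ K₁`, so `τ(s) = ε^i s^n c ∈ F`.
`γ` is central in `G = Gal(F/K)`: `τ γ s = τ(ε s) = ε^n ε^i s^n c` and
`γ τ s = γ(ε^i s^n c) = ε^i ε^n s^n c`, and the two are equal on `K₁` (`γ` is trivial there). `G/⟨γ⟩ =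
Gal(K₁/K)` embeds in `(ZMod p)ˣ`, a cyclic group, so `G` is abelian (`commutative_of_cyclic_center_quotient` or
directly), of order `p g`, `g = [K₁ : K]` prime to `p` (`g ∣ p - 1`). Let `C = {σ ∈ G : σ^g = 1}`, a subgroup
of order `g` (`G` abelian: `G = G[p] × G[g]`, `G[p] = ⟨γ⟩` of order `p`), and `N = F^C`, as an
intermediate field of `Ω/K`: `[N : K] = p`, `N/K` is Galois since `C` is normal. An element of `Gal(F/K)` which is
trivial on `N` and `K₁` is in `C ∩ ⟨γ⟩ = 1`, so `N K₁ = F ∋ s`; the other `p`-th roots of `a` are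
`ε^i s`. -/
def E_KUM : Prop :=
  ∀ (p : ℕ) [Fact p.Prime] (K : Type) [Field K] [CharZero K] (ε : AlgebraicClosure K),
    IsPrimitiveRoot ε p → ∀ (ε₁ a : IntermediateField.adjoin K {ε}),
    (ε₁ : AlgebraicClosure K) = ε → OmType p K ε₁ a → (¬ ∃ y, y ^ p = a) →
  ∃ N : IntermediateField K (AlgebraicClosure K), finrank K N = p ∧ IsGalois K N ∧
    ∀ s : AlgebraicClosure K, s ^ p = (a : AlgebraicClosure K) →
      s ∈ N ⊔ IntermediateField.adjoin K {ε}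

/-- **E_TOR.** Let `δ^m = 1` and suppose that for every primitive `p`-th root of unity `ξ` of `H` there is
`0 < e < m` with `δ^e ξ = ξ`. Then `TorOK P δ`.

PROOF. If `H` contains no primitive `p`-th root of unity, all `ξ` with `ξ^(p^n) = 1` are `1` and `i = 1`
works: `P(1) ≠ 0` because `P` is coprime to `X - 1` (`PhiData.cop` with `e = 1 < m`). Otherwise the `ξ` with
`ξ^(p^n) = 1` for some `n` form a finite cyclic group (`H` is a number field), `δ` acts on it as `ξ ↦ ξ^i`,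
`i ∈ ℕ`. Suppose `P(i) = 0` in `F_p`. `P` is irreducible and `X - i ∣ P`, so `P` and `X - i` are associated.
`P ∣ X^m - 1` gives `i^m = 1`; let `e` be the order of `i` in `F_pˣ`, so `e ∣ m` and `X - i ∣ X^e - 1`; if
`e < m` this contradicts `PhiData.cop`; so `e = m`. Let `ξ` be a primitive `p`-th root of unity; for
`0 < e' < m`, `δ^(e') ξ = ξ^(i^(e')) ≠ ξ` as `i^(e') ≢ 1 mod p`: contrary to the hypothesis. -/
def E_TOR : Prop :=
  ∀ (p : ℕ) [Fact p.Prime] (k : Type) [NormedField k] [NormedAlgebra ℚ_[p] k] (m : ℕ) (ζ : k)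
    (Φ : ℤ_[p][X]) (P : (ZMod p)[X]), PhiData p m ζ Φ P →
  ∀ (K H : Type) [Field K] [Field H] [NumberField H] [Algebra K H] (δ : H ≃ₐ[K] H), δ ^ m = 1 →
    (∀ ξ : H, IsPrimitiveRoot ξ p → ∃ e, 0 < e ∧ e < m ∧ (δ ^ e) ξ = ξ) → TorOK P δ

/-- **E_GOO** (a matching extension is good: the strong form). Let `M/K` be the extension cut out by `χ₀`,
`(R, α)` a datum with trivial Selmer group. Let `M₁/M` be Galois of degree prime to `p`, `ε ∈ M₁` a primitive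
`p`-th root of unity, `a ∈ 𝓞_{M₁}`, `a ≡ 1 mod p³`, matching the datum, `j : M₁ → Ω` an embedding which is the
inclusion on `M`, `s ∈ Ω` with `s^p = j(a)`, `s ∉ j(M₁)`. Let `N/K` be Galois of degree `p` such that `s` is in
the compositum of `N` and `j(M₁)` (expressed by automorphisms). Then the `Σ`-Leopoldt statement holds for
`χ₀ φ_N`.

PROOF (from `RP.S_P1`, `RP.S_NSP`, `E_MAT`, `E_TOR`; `T = TSet ιinf ιp S`). Let `m = [M : K]`, `k = ℂ_p`
(`Nonempty (AlgebraicClosure ℚ →+* k)`), `Ω` the algebraic closure. Let `H = M ⊔ N` and `χ` be as in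
`TwistGood`. `[N : K] = p` and `[M : K]` are coprime and both are Galois over `K`: `[H : M] = p`, `H/K` is
Galois and `Gal(H/K) → Gal(M/K) × Gal(N/K)` is an isomorphism. Let `M₁' = j(M₁)` and `H₁ ⊆ Ω` the
compositum of `M₁'` and `N`; it contains `H`. `Ω/H₁` is Galois, so the hypothesis on the automorphisms gives
`s ∈ H₁`; `H₁/M₁'` is Galois with group embedded in `Gal(N/K)` (restriction), of order `1` or `p`; it
is `p` since `s ∉ M₁'`. So `H₁ = M₁'(s)`, and there is `γ₁ ∈ Gal(H₁/M₁')` with `γ₁ s = ε s` (a power of any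
nontrivial element). Its restriction `γ` to `H` (which is normal over `K`) is trivial on `M` and not
trivial on `N`, so it has order `p`. Let `δ' ∈ Gal(H/K)` be the element which extends `δ` and is trivial on
`N`: `δ'` has order `m` and commutes with `γ`. All the conditions of `HData` hold (`H₁` is a finite extension
of `M₁` via `j`).

*TorOK P δ'* by `E_TOR`: let `ξ ∈ H` be a primitive `p`-th root of unity; `K(ξ)/K` is Galois of degree
dividing `p - 1`, `γ` acts on it by an element of order dividing `p` and `p - 1`, so `γ ξ = ξ` and `ξ ∈ M`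
(`M` is the fixed field of `γ`). If `δ^e ξ ≠ ξ` for all `0 < e < m` then no element `≠ 1` of
`Gal(M/K) = ⟨δ⟩` fixes `ξ`, so `M = K(ξ)`, contrary to the hypothesis.

*Sel(a)* is contained in `SelD` by `E_MAT`, so it consists of `p`-th powers.

*Conclusion.* Let `x ∈ k ⊗ 𝓞_Hˣ` and `z = eChi x`, suppose that all `ℓ ∈ logSigma` kill `z`.
`γ z = χ(γ) z`, `δ' z = χ(δ') z` (reindex the sum defining `eChi`; `[H : K] = |Gal(H/K)|`). `χ` is
injective, so `χ(γ)` is a primitive `p`-th root of unity. `χ(δ')^m = 1` and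
`χ(δ')^p = χ₀(δ)^p`, `χ₀(δ)^m = 1`: the quotient `χ(δ')/χ₀(δ)` has order dividing `m` and `p`, so
`χ(δ') = χ₀(δ) = ζ`. If `τ : H → k` is in `above (above T)`, its values are algebraic over `ℚ`, so
`τ = ιp ∘ σ` with `σ : H → Ω`, and `τ|_K = ιp ∘ σ'` with `ιinf ∘ σ' ∈ S`, `σ' = σ|_K` as `ιp` is
injective; so `logUnits L τ ∈ logSigma`, and it kills `z`. By `RP.S_P1`, `z = 0`. -/
def E_GOO : Prop :=
  ∀ (p : ℕ) [Fact p.Prime] (K : Type) [Field K] [NumberField K]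
    (ιinf : AlgebraicClosure K →+* ℂ) (ιp : AlgebraicClosure K →+* ℂ_[p]) (L : IwasawaLog p ℂ_[p])
    (S : Set (K →+* ℂ)), PlaceClosed (TSet ιinf ιp S) →
  ∀ (M : IntermediateField K (AlgebraicClosure K)) [NumberField M] [IsGalois K M]
    (χ₀ : (M ≃ₐ[K] M) →* ℂ_[p]ˣ), Function.Injective χ₀ → (finrank K M).Coprime p →
    (∀ ξ : AlgebraicClosure K, IsPrimitiveRoot ξ p → ¬ M ≤ IntermediateField.adjoin K {ξ}) →
  ∀ (δ : M ≃ₐ[K] M) (Φ : ℤ_[p][X]) (P : (ZMod p)[X]), orderOf δ = finrank K M →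
    PhiData p (finrank K M) ((χ₀ δ : ℂ_[p]ˣ) : ℂ_[p]) Φ P →
  ∀ (R : Set (HeightOneSpectrum (𝓞 M))) (al : HeightOneSpectrum (𝓞 M) → K), IsDat p R al →
    (∀ x : (M)ˣ, SelD L (above (TSet ιinf ιp S)) P δ R al x → Pw p x) →
  ∀ (M₁ : Type) [Field M₁] [NumberField M₁] [Algebra M M₁] [IsGalois M M₁],
    (finrank M M₁).Coprime p → ∀ (ε : M₁) (a : 𝓞 M₁), IsPrimitiveRoot ε p → a ≠ 0 →
    (p : 𝓞 M₁) ^ 3 ∣ a - 1 → Match p R al (a : M₁) →
  ∀ (j : M₁ →+* AlgebraicClosure K), (∀ x : M, j (algebraMap M M₁ x) = x) →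
  ∀ s : AlgebraicClosure K, s ^ p = j a → (¬ ∃ y : M₁, j y = s) →
  ∀ N : IntermediateField K (AlgebraicClosure K), finrank K N = p → IsGalois K N →
    (∀ g : AlgebraicClosure K ≃ₐ[K] AlgebraicClosure K, (∀ y ∈ N, g y = y) →
      (∀ x : M₁, g (j x) = j x) → g s = s) →
  TwistGood p ιinf ιp L S M χ₀ N

/-- **E_RSP** (the theorem, infinitely many `N`). Let `p` be a prime, `K` a number field, `S` a CM type of `K`
which is `p`-ordinary for `ι_∞`, `ι_p`, `χ₀` a character of order prime to `p` of `K`, cutting out `M`, and suppose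
that `M` is not contained in `K(μ_p)`. There are infinitely many cyclic extensions `N` of degree `p` of `K`
such that the `Σ`-Leopoldt statement holds for the characters `χ₀ φ`, `φ` a character of order `p` of
`Gal(N/K)`.

PROOF (from `RP.S_PHI`, `D_COR`, `E_TOW`, `E_TOR`, `E_EXA`, `E_KUM`, `E_GOO`). Let `Ω = AlgebraicClosure K`,
`k = ℂ_[p]`.
*K is totally complex*: an embedding `φ : K → ℂ` equal to its conjugate contradicts `IsCMType`.
*T = TSet ιinf ιp S*: `σ ↦ ιinf ∘ σ` and `σ ↦ ιp ∘ σ` are bijections from the set of the embeddings `K → Ω` to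
those of `K → ℂ`, resp. `K → k` (injective, and all three sets have `[K : ℚ]` elements). So
`2 |T| = 2 |S| = [K : ℚ]` since `S` contains exactly one embedding of each conjugate pair. `PlaceClosed T`
is the hypothesis (if `σ' = ιp ∘ σ`, `τ' = ιp ∘ τ`; every embedding of `K` in `k` is of this form).
*M*. `Gal(M/K)` embeds in `kˣ`, it is cyclic; let `δ` be a generator, `m = [M : K]`, `ζ = χ₀(δ)`, a
primitive `m`-th root of unity; `m > 1` because `M ≠ K`; `RP.S_PHI` gives `PhiData p m ζ Φ P`. `TorOK P δ` by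
`E_TOR` (as in `E_GOO`: if `ξ ∈ M` is a primitive `p`-th root of unity fixed by no `δ^e`, `0 < e < m`, then
`M = K(ξ)`). `D_COR` gives a datum `(R, α)` with trivial Selmer group.
*The tower*. Let `ε ∈ Ω` be a primitive `p`-th root of unity, `K₁ = K(ε)`, `M₁ = M(ε)`, as types (for instance
`IntermediateField.adjoin K {ε}` and `IntermediateField.adjoin M {ε}`), with the inclusions; `Tower` holds
(`[M₁ : K₁] > 1` since `M` is not contained in `K₁`), and `E_TOW` gives the degrees.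
*Infinitely many N*. Suppose that the set of the good `N` is contained in a finite set `𝒩` of Galois
extensions of degree `p`. For `N ∈ 𝒩`: `[N K₁ : K₁] = p` (coprime degrees), cyclic, so by Kummer theory
(`exists_root_adjoin_eq_top_of_isCyclic`) there is `s_N ∈ N K₁`, `s_N ∉ K₁`, with `a_N = s_N^p ∈ K₁`. Let `Z`
be the finite set of the primes `W` of `M₁` with `ord_W(a_N) ≠ 0` for some `N ∈ 𝒩`. Let `a`, `W` be given by
`E_EXA`. `a` is not a `p`-th power in `M₁` (so not in `K₁`), because `p ∤ ord_W(a)`. Let `N` be given by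
`E_KUM`, `s ∈ Ω` with `s^p = a`; `s ∉ M₁`. By `E_GOO` (with `j` the inclusion of `M₁`; if `g` fixes `N` and
`M₁ ⊇ K₁` then it fixes `s ∈ N K₁`) `N` is good, so `N ∈ 𝒩`. Then `s` and `s_N` generate the same extension
`N K₁` of `K₁` of degree `p`. Let `γ` be the generator of its Galois group with `γ s = ε s`; `γ s_N = ε^i s_N`
with `p ∤ i` (`s_N ∉ K₁`). `s_N s^(-i)` is fixed by `γ`, so it is in `K₁`, and `a_N = c^p a^i` with
`c ∈ K₁`; so `ord_W(a_N) ≡ i ord_W(a) ≢ 0 mod p`, `W ∈ Z`, a contradiction. -/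
def E_RSP : Prop :=
  ∀ (p : ℕ) [Fact p.Prime] (K : Type) [Field K] [NumberField K] (ιinf : AlgebraicClosure K →+* ℂ)
    (ιp : AlgebraicClosure K →+* ℂ_[p]) (L : IwasawaLog p ℂ_[p]) (S : Set (K →+* ℂ)), IsCMType S →
    (∀ σ τ : K →+* AlgebraicClosure K, (∀ x, ‖ιp (σ x)‖ = ‖ιp (τ x)‖) →
      (ιinf.comp σ ∈ S ↔ ιinf.comp τ ∈ S)) →
  ∀ (M : IntermediateField K (AlgebraicClosure K)) [FiniteDimensional K M] [IsGalois K M]
    (χ₀ : (M ≃ₐ[K] M) →* ℂ_[p]ˣ), Function.Injective χ₀ → (finrank K M).Coprime p →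
    (∀ ξ : AlgebraicClosure K, IsPrimitiveRoot ξ p → ¬ M ≤ IntermediateField.adjoin K {ξ}) →
  {N : IntermediateField K (AlgebraicClosure K) | finrank K N = p ∧ IsGalois K N ∧
    TwistGood p ιinf ιp L S M χ₀ N}.Infinite

end Pool.Agent.Helper42.RD
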