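import Pool.Agent.Helper42.RD.Goals1
import Pool.Agent.Helper49.RS.VAL

/-!
# Project RD (MP_fc6b1e_nt): packet D_VAL

A datum defines a local system.
-/

namespace Pool.Agent.Helper42.RD

open NumberField Polynomial Module IsDedekindDomain Pool.Agent.Helper51.SigLeo
open Pool.Agent.Helper51.RP

section locpow

variable {p : ℕ} {M : Type} [Field M] [NumberField M] (w : HeightOneSpectrum (𝓞 M))

theorem val_eq_one_of_sub {x : M} (h : w.valuation M (x - 1) < 1) : w.valuation M x = 1 := by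
  have h1 := Valuation.map_eq_of_sub_lt (w.valuation M) (x := 1) (y := x) (by rwa [map_one])
  rwa [map_one] at h1

theorem val_mul_sub {x y : M} (hx : w.valuation M (x - 1) < 1) (hy : w.valuation M (y - 1) < 1) :
    w.valuation M (x * y - 1) < 1 := by
  have e : x * y - 1 = (x - 1) * y + (y - 1) := by ring
  rw [e]
  refine Valuation.map_add_lt _ ?_ hy
  rw [map_mul, val_eq_one_of_sub w hy, mul_one]
  exact hx

theorem val_inv_sub {x : M} (hx : w.valuation M (x - 1) < 1) : w.valuation M (x⁻¹ - 1) < 1 := by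
  have h1 := val_eq_one_of_sub w hx
  have h0 : x ≠ 0 := by rintro rfl; rw [map_zero] at h1; exact zero_ne_one h1
  have e : x⁻¹ - 1 = -((x - 1) * x⁻¹) := by field_simp; ring
  rw [e, Valuation.map_neg, map_mul, map_inv₀, h1, inv_one, mul_one]
  exact hx

theorem val_pow_sub {x : M} (hx : w.valuation M (x - 1) < 1) (n : ℕ) :
    w.valuation M (x ^ n - 1) < 1 := by
  induction n with
  | zero => rw [pow_zero, sub_self, map_zero]; exact zero_lt_one
  | succ n ih => rw [pow_succ]; exact val_mul_sub w ih hx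

theorem locPow_of_sub {x : M} (h : w.valuation M (x - 1) < 1) : LocPow p w x :=
  ⟨1, by rwa [one_pow, mul_one]⟩

theorem locPow_mul {x y : M} (hx : LocPow p w x) (hy : LocPow p w y) : LocPow p w (x * y) := by
  obtain ⟨a, ha⟩ := hx
  obtain ⟨b, hb⟩ := hy
  refine ⟨a * b, ?_⟩
  have e : x * y * (a * b) ^ p = (x * a ^ p) * (y * b ^ p) := by ring
  rw [e]
  exact val_mul_sub w ha hb

theorem locPow_ne_zero {x : M} (hx : LocPow p w x) : x ≠ 0 := by
  obtain ⟨a, ha⟩ := hx
  rintro rfl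
  rw [zero_mul, zero_sub, Valuation.map_neg, map_one] at ha
  exact lt_irrefl _ ha

theorem locPow_inv {x : M} (hx : LocPow p w x) : LocPow p w x⁻¹ := by
  obtain ⟨a, ha⟩ := hx
  refine ⟨a⁻¹, ?_⟩
  rw [inv_pow, ← mul_inv]
  exact val_inv_sub w ha

theorem locPow_pow {x : M} (hx : LocPow p w x) (n : ℕ) : LocPow p w (x ^ n) := by
  obtain ⟨a, ha⟩ := hx
  induction n with
  | zero => exact locPow_of_sub w (by rw [pow_zero, sub_self, map_zero]; exact zero_lt_one)
  | succ n ih => rw [pow_succ]; exact locPow_mul w ih ⟨a, ha⟩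

theorem locPow_pth {c : M} (hc : c ≠ 0) : LocPow p w (c ^ p) :=
  ⟨c⁻¹, by
    rw [← mul_pow, mul_inv_cancel₀ hc, one_pow, sub_self, map_zero]
    exact zero_lt_one⟩

theorem locPow_mul_pth {x c : M} (hc : c ≠ 0) : LocPow p w (x * c ^ p) ↔ LocPow p w x := by
  constructor
  · intro h
    have h2 := locPow_mul w h (locPow_inv w (locPow_pth w hc))
    rwa [mul_assoc, mul_inv_cancel₀ (pow_ne_zero p hc), mul_one] at h2
  · intro h
    exact locPow_mul w h (locPow_pth w hc)

/-- `ordv` of a product. -/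
theorem ordv_mul {x y : M} (hx : x ≠ 0) (hy : y ≠ 0) : ordv w (x * y) = ordv w x + ordv w y := by
  unfold ordv
  rw [map_mul, WithZero.log_mul ((Valuation.ne_zero_iff _).2 hx) ((Valuation.ne_zero_iff _).2 hy)]
  ring

theorem ordv_pow (x : M) (n : ℕ) : ordv w (x ^ n) = n * ordv w x := by
  unfold ordv
  rw [map_pow, WithZero.log_pow]
  simp

theorem ordv_inv {x : M} (hx : x ≠ 0) : ordv w x⁻¹ = - ordv w x := by
  have h := ordv_mul w hx (inv_ne_zero hx)
  rw [mul_inv_cancel₀ hx] at h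
  have h1 : ordv w (1 : M) = 0 := by unfold ordv; rw [map_one, WithZero.log_one, neg_zero]
  rw [h1] at h
  linarith

theorem ordv_zpow {x : M} (hx : x ≠ 0) (n : ℤ) : ordv w (x ^ n) = n * ordv w x := by
  cases n with
  | ofNat n => simp [ordv_pow w x n]
  | negSucc n =>
    rw [zpow_negSucc, ordv_inv w (pow_ne_zero _ hx), ordv_pow, Int.negSucc_eq]
    push_cast
    ring

theorem ordv_eq_zero_iff {x : M} (hx : x ≠ 0) : ordv w x = 0 ↔ w.valuation M x = 1 := by
  unfold ordv
  have hv := (Valuation.ne_zero_iff (w.valuation M)).2 hx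
  constructor
  · intro h
    rw [← WithZero.exp_log hv, neg_eq_zero.1 h, WithZero.exp_zero]
  · intro h
    rw [h, WithZero.log_one, neg_zero]

/-- A prime element of the residue group. -/
theorem exists_gen (hp : p.Prime) (hN : p ∣ Ideal.absNorm w.asIdeal - 1) :
    ∃ g : 𝓞 M, g ∉ w.asIdeal ∧ (∀ c : 𝓞 M, c ∉ w.asIdeal → ∃ i : ℕ, c - g ^ i ∈ w.asIdeal) ∧
      ∀ (i : ℕ) (c : 𝓞 M), g ^ i * c ^ p - 1 ∈ w.asIdeal → p ∣ i := by
  let _ : Field (𝓞 M ⧸ w.asIdeal) := Ideal.Quotient.field w.asIdeal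
  have hfin : Finite (𝓞 M ⧸ w.asIdeal) := inferInstance
  have hcyc : IsCyclic (𝓞 M ⧸ w.asIdeal)ˣ := inferInstance
  obtain ⟨γ, hγ⟩ := hcyc.exists_generator
  have hcard : Nat.card (𝓞 M ⧸ w.asIdeal)ˣ = Ideal.absNorm w.asIdeal - 1 := by
    rw [Nat.card_units, Ideal.absNorm_apply, Submodule.cardQuot_apply]
  have hord : orderOf γ = Ideal.absNorm w.asIdeal - 1 := by
    rw [← hcard]
    exact orderOf_eq_card_of_forall_mem_zpowers hγ
  obtain ⟨g, hg⟩ := Ideal.Quotient.mk_surjective (γ : 𝓞 M ⧸ w.asIdeal)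
  have hmk : ∀ c : 𝓞 M, Ideal.Quotient.mk w.asIdeal c = 0 ↔ c ∈ w.asIdeal := fun c =>
    Ideal.Quotient.eq_zero_iff_mem
  refine ⟨g, fun h => ?_, fun c hc => ?_, fun i c h => ?_⟩
  · rw [← hmk, hg] at h
    exact γ.ne_zero h
  · have hc0 : Ideal.Quotient.mk w.asIdeal c ≠ 0 := fun h => hc ((hmk c).1 h)
    have h1 : Units.mk0 _ hc0 ∈ Submonoid.powers γ := by
      rw [mem_powers_iff_mem_zpowers]
      exact hγ _
    obtain ⟨i, hi⟩ := h1
    refine ⟨i, ?_⟩
    rw [← hmk, map_sub, map_pow, hg, sub_eq_zero]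
    have h2 := congrArg (fun u : (𝓞 M ⧸ w.asIdeal)ˣ => (u : 𝓞 M ⧸ w.asIdeal)) hi
    simp only [Units.val_pow_eq_pow_val, Units.val_mk0] at h2
    exact h2.symm
  · rw [← hmk, map_sub, map_mul, map_pow, map_pow, map_one, hg, sub_eq_zero] at h
    have hc0 : Ideal.Quotient.mk w.asIdeal c ≠ 0 := by
      intro h0
      rw [h0, zero_pow hp.ne_zero, mul_zero] at h
      exact zero_ne_one h
    have h1 : Units.mk0 _ hc0 ∈ Submonoid.powers γ := by
      rw [mem_powers_iff_mem_zpowers]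
      exact hγ _
    obtain ⟨j, hj⟩ := h1
    have h2 := congrArg (fun u : (𝓞 M ⧸ w.asIdeal)ˣ => (u : 𝓞 M ⧸ w.asIdeal)) hj
    simp only [Units.val_pow_eq_pow_val, Units.val_mk0] at h2
    rw [← h2, ← pow_mul, ← pow_add] at h
    have h3 : γ ^ (i + j * p) = 1 := by
      apply Units.ext
      rw [Units.val_pow_eq_pow_val, h, Units.val_one]
    have h4 : p ∣ i + j * p := hN.trans (by rw [← hord]; exact orderOf_dvd_of_pow_eq_one h3)
    exact (Nat.dvd_add_left (Dvd.intro_left j rfl)).1 h4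

theorem exists_int_close {z : M} (hz : w.valuation M z = 1) :
    ∃ c : 𝓞 M, c ∉ w.asIdeal ∧ w.valuation M ((c : M) / z - 1) < 1 := by
  obtain ⟨c, hc⟩ := w.exists_valuation_sub_lt_of_integer (K := M) hz.le 1
  rw [Units.val_one] at hc
  have hc' : w.valuation M ((c : M) - z) < 1 := hc
  have hz0 : z ≠ 0 := by rintro rfl; rw [map_zero] at hz; exact zero_ne_one hz
  have hvc : w.valuation M (c : M) = 1 := by
    rw [← hz]
    exact Valuation.map_eq_of_sub_lt _ (by rw [hz]; exact hc')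
  refine ⟨c, fun h => ?_, ?_⟩
  · have := (w.valuation_lt_one_iff_mem (K := M) c).2 h
    exact absurd hvc this.ne
  · have e : (c : M) / z - 1 = (c - z) / z := by field_simp
    rw [e, map_div₀, hz, div_one]
    exact hc'

theorem val_of_notMem {c : 𝓞 M} (hc : c ∉ w.asIdeal) : w.valuation M (c : M) = 1 :=
  (w.valuation_eq_one_iff_notMem (K := M)).2 hc

theorem val_div_of_sub_mem {c d : 𝓞 M} (hd : d ∉ w.asIdeal) (h : c - d ∈ w.asIdeal) :
    w.valuation M ((c : M) / d - 1) < 1 := by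
  have h1 : w.valuation M (((c - d : 𝓞 M)) : M) < 1 :=
    (w.valuation_lt_one_iff_mem (K := M) (c - d)).2 h
  have hvd := val_of_notMem w hd
  have hd0 : (d : M) ≠ 0 := by intro h0; rw [h0, map_zero] at hvd; exact zero_ne_one hvd
  have e : (c : M) / d - 1 = ((c - d : 𝓞 M) : M) / d := by
    push_cast; field_simp
  rw [e, map_div₀, hvd, div_one]
  exact h1

/-- The tame group with integer exponents. -/
def TG (p : ℕ) (w : HeightOneSpectrum (𝓞 M)) (α x : M) : Prop := ∃ n : ℤ, LocPow p w (x * α ^ n)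

theorem tg_iff (hp : p ≠ 0) {α : M} (hα : α ≠ 0) (x : M) :
    TG p w α x ↔ ∃ i : ℕ, LocPow p w (x * α ^ i) := by
  constructor
  · rintro ⟨n, hn⟩
    refine ⟨(n + p * |n|).toNat, ?_⟩
    have h0 : 0 ≤ n + p * |n| := by
      have h1 : (1 : ℤ) ≤ p := by exact_mod_cast Nat.one_le_iff_ne_zero.2 hp
      have h2 : -|n| ≤ n := neg_abs_le n
      nlinarith [abs_nonneg n]
    rw [← zpow_natCast, Int.toNat_of_nonneg h0, zpow_add₀ hα, mul_comm (p : ℤ), zpow_mul,
      zpow_natCast, ← mul_assoc, locPow_mul_pth w (zpow_ne_zero _ hα)]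
    exact hn
  · rintro ⟨i, hi⟩
    exact ⟨i, by rwa [zpow_natCast]⟩

theorem tg_mul {α : M} (hα : α ≠ 0) {x y : M} (hx : TG p w α x) (hy : TG p w α y) :
    TG p w α (x * y) := by
  obtain ⟨m, hm⟩ := hx
  obtain ⟨n, hn⟩ := hy
  refine ⟨m + n, ?_⟩
  have e : x * y * α ^ (m + n) = (x * α ^ m) * (y * α ^ n) := by rw [zpow_add₀ hα]; ring
  rw [e]
  exact locPow_mul w hm hn

theorem tg_inv {α : M} {x : M} (hx : TG p w α x) : TG p w α x⁻¹ := by
  obtain ⟨m, hm⟩ := hx
  refine ⟨-m, ?_⟩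
  have e : x⁻¹ * α ^ (-m) = (x * α ^ m)⁻¹ := by rw [mul_inv, zpow_neg]
  rw [e]
  exact locPow_inv w hm

/-- The tame symbol at a prime of norm congruent to `1` modulo `p`. -/
theorem exists_theta (hp : p.Prime) (hN : p ∣ Ideal.absNorm w.asIdeal - 1) (α : M)
    (hα : ordv w α = 1) :
    ∃ θ : Mˣ → ZMod p, (∀ x y, θ (x * y) = θ x + θ y) ∧
      (∀ x, θ x = 0 ↔ ∃ i : ℕ, LocPow p w ((x : M) * α ^ i)) ∧ ∀ c : ZMod p, ∃ x, θ x = c := by
  have hα0 : α ≠ 0 := by
    rintro rfl
    unfold ordv at hα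
    rw [map_zero, WithZero.log_zero] at hα
    norm_num at hα
  obtain ⟨g, hg, hg1, hg2⟩ := exists_gen w hp hN
  have hvg := val_of_notMem w hg
  have hg0 : (g : M) ≠ 0 := by intro h0; rw [h0, map_zero] at hvg; exact zero_ne_one hvg
  have hgpow : ∀ i : ℕ, g ^ i ∉ w.asIdeal := fun i h => hg (w.isPrime.mem_of_pow_mem i h)
  -- existence
  have hex : ∀ x : Mˣ, ∃ i : ℕ, TG p w α ((x : M) / (g : M) ^ i) := by
    intro x
    set z : M := x * α ^ (-ordv w (x : M)) with hz
    have hz0 : z ≠ 0 := mul_ne_zero x.ne_zero (zpow_ne_zero _ hα0)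
    have hvz : w.valuation M z = 1 := by
      rw [← ordv_eq_zero_iff w hz0, hz, ordv_mul w x.ne_zero (zpow_ne_zero _ hα0),
        ordv_zpow w hα0, hα]
      ring
    obtain ⟨c, hc, hcz⟩ := exists_int_close w hvz
    obtain ⟨i, hi⟩ := hg1 c hc
    have h1 := val_div_of_sub_mem w (hgpow i) hi
    refine ⟨i, -ordv w (x : M), locPow_of_sub w ?_⟩
    have hvc := val_of_notMem w hc
    have hc0 : (c : M) ≠ 0 := by intro h0; rw [h0, map_zero] at hvc; exact zero_ne_one hvc
    have e : (x : M) / (g : M) ^ i * α ^ (-ordv w (x : M)) =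
        ((c : M) / z)⁻¹ * ((c : M) / ((g ^ i : 𝓞 M) : M)) := by
      push_cast
      rw [inv_div]
      field_simp
      rw [hz]
    rw [e]
    exact val_mul_sub w (val_inv_sub w hcz) h1
  -- powers of g in the tame group
  have hpg : ∀ n : ℕ, TG p w α ((g : M) ^ n) → p ∣ n := by
    rintro n ⟨m, y, hy⟩
    have hy0 : y ≠ 0 := by
      rintro rfl
      rw [zero_pow hp.ne_zero, mul_zero, zero_sub, Valuation.map_neg, map_one] at hy
      exact lt_irrefl _ hy
    have h1 := val_eq_one_of_sub w hy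
    have hne : (g : M) ^ n * α ^ m * y ^ p ≠ 0 :=
      mul_ne_zero (mul_ne_zero (pow_ne_zero _ hg0) (zpow_ne_zero _ hα0)) (pow_ne_zero _ hy0)
    rw [← ordv_eq_zero_iff w hne, ordv_mul w (mul_ne_zero (pow_ne_zero _ hg0)
      (zpow_ne_zero _ hα0)) (pow_ne_zero _ hy0), ordv_mul w (pow_ne_zero _ hg0)
      (zpow_ne_zero _ hα0), ordv_pow, ordv_zpow w hα0, ordv_pow,
      (ordv_eq_zero_iff w hg0).2 hvg, hα] at h1
    have hm : m = (-ordv w y) * p := by linarith
    set z : M := α ^ (-ordv w y) * y with hz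
    have hz0 : z ≠ 0 := mul_ne_zero (zpow_ne_zero _ hα0) hy0
    have hvz : w.valuation M z = 1 := by
      rw [← ordv_eq_zero_iff w hz0, hz, ordv_mul w (zpow_ne_zero _ hα0) hy0, ordv_zpow w hα0, hα]
      ring
    have e1 : (g : M) ^ n * α ^ m * y ^ p = (g : M) ^ n * z ^ p := by
      rw [hz, mul_pow, hm, zpow_mul, zpow_natCast]; ring
    rw [e1] at hy
    obtain ⟨c, hc, hcz⟩ := exists_int_close w hvz
    have h2 : w.valuation M (((c : M) / z) ^ p - 1) < 1 := val_pow_sub w hcz p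
    have h3 := val_mul_sub w hy h2
    have e2 : (g : M) ^ n * z ^ p * ((c : M) / z) ^ p = (g : M) ^ n * (c : M) ^ p := by
      rw [div_pow]; field_simp
    rw [e2] at h3
    refine hg2 n c ?_
    rw [← w.valuation_lt_one_iff_mem (K := M)]
    simpa using h3
  have huniq : ∀ (x : Mˣ) (i j : ℕ), TG p w α ((x : M) / (g : M) ^ i) →
      TG p w α ((x : M) / (g : M) ^ j) → (i : ZMod p) = j := by
    intro x i j hi hj
    have h1 := tg_mul w hα0 hj (tg_inv w hi)
    have h2 : TG p w α ((g : M) ^ (i + (p - 1) * j)) := by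
      obtain ⟨n, hn⟩ := h1
      refine ⟨n, ?_⟩
      have e : (g : M) ^ (i + (p - 1) * j) * α ^ n =
          ((x : M) / (g : M) ^ j * ((x : M) / (g : M) ^ i)⁻¹ * α ^ n) * ((g : M) ^ j) ^ p := by
        have e3 : ((g : M) ^ j) ^ p = (g : M) ^ j * (g : M) ^ ((p - 1) * j) := by
          rw [← pow_mul, ← pow_add]
          congr 1
          obtain ⟨q, hq⟩ : ∃ q, p = q + 1 := ⟨p - 1, (Nat.succ_pred_eq_of_pos hp.pos).symm⟩
          subst hq
          simp only [Nat.add_sub_cancel]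
          ring
        rw [e3, inv_div, pow_add]
        have hx0 := x.ne_zero
        field_simp
      rw [e, locPow_mul_pth w (pow_ne_zero _ hg0)]
      exact hn
    have h3 := hpg _ h2
    have h4 : ((i + (p - 1) * j : ℕ) : ZMod p) = 0 := (ZMod.natCast_eq_zero_iff _ _).2 h3
    have h5 : ((p - 1 : ℕ) : ZMod p) = -1 := by
      rw [Nat.cast_sub hp.one_le, Nat.cast_one, ZMod.natCast_self, zero_sub]
    push_cast at h4
    rw [h5] at h4
    linear_combination h4
  choose f hf using hex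
  have hfi : ∀ (x : Mˣ) (i : ℕ), TG p w α ((x : M) / (g : M) ^ i) ↔ (f x : ZMod p) = i := by
    intro x i
    constructor
    · intro h; exact huniq x _ _ (hf x) h
    · intro h
      have hs : Int.natAbs ((f x : ℤ) - i) = Int.natAbs ((f x : ℤ) - i) := rfl
      obtain ⟨k, hk⟩ : (p : ℤ) ∣ (f x : ℤ) - i := by
        rw [← ZMod.intCast_zmod_eq_zero_iff_dvd]
        push_cast
        rw [h, sub_self]
      obtain ⟨n, hn⟩ := hf x
      refine ⟨n, ?_⟩
      have e : (x : M) / (g : M) ^ i * α ^ n =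
          ((x : M) / (g : M) ^ (f x) * α ^ n) * ((g : M) ^ k) ^ p := by
        have e4 : ((g : M) ^ k) ^ p = (g : M) ^ (f x) / (g : M) ^ i := by
          rw [← zpow_natCast, ← zpow_mul, mul_comm k, ← hk, zpow_sub₀ hg0, zpow_natCast,
            zpow_natCast]
        rw [e4]
        field_simp
      rw [e, locPow_mul_pth w (zpow_ne_zero _ hg0)]
      exact hn
  refine ⟨fun x => (f x : ZMod p), fun x y => ?_, fun x => ?_, fun c => ?_⟩
  · have h1 := tg_mul w hα0 (hf x) (hf y)
    have h2 : (x : M) / (g : M) ^ f x * ((y : M) / (g : M) ^ f y) =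
        ((x * y : Mˣ) : M) / (g : M) ^ (f x + f y) := by
      rw [Units.val_mul, pow_add]
      field_simp
    rw [h2, hfi] at h1
    show ((f (x * y) : ℕ) : ZMod p) = f x + f y
    rw [h1]
    push_cast
    ring
  · have h1 := hfi x 0
    rw [pow_zero, div_one, Nat.cast_zero] at h1
    rw [← h1, tg_iff w hp.ne_zero hα0]
  · refine ⟨Units.mk0 ((g : M) ^ c.val) (pow_ne_zero _ hg0), ?_⟩
    have hNZ : NeZero p := ⟨hp.ne_zero⟩
    have h1 := (hfi (Units.mk0 ((g : M) ^ c.val) (pow_ne_zero _ hg0)) c.val).1 (by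
      rw [Units.val_mk0, div_self (pow_ne_zero _ hg0)]
      exact ⟨0, locPow_of_sub w (by rw [zpow_zero, mul_one, sub_self, map_zero]; exact zero_lt_one)⟩)
    show ((f _ : ℕ) : ZMod p) = c
    rw [h1, ZMod.natCast_zmod_val]

end locpow

section norm

open Pool.Agent.Helper49.RSV (norm_int_le PI mem_PI)

variable {M : Type} [Field M] [NumberField M] {k : Type} [NormedField k] [IsUltrametricDist k]

omit [IsUltrametricDist k] in
theorem norm_p (p : ℕ) [Fact p.Prime] [NormedAlgebra ℚ_[p] k] : ‖(p : k)‖ = 1 / p := by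
  have h : (p : k) = algebraMap ℚ_[p] k p := by rw [map_natCast]
  rw [h, norm_algebraMap', Padic.norm_p, one_div]

/-- The prime of an embedding. -/
def wt (p : ℕ) [Fact p.Prime] [NormedAlgebra ℚ_[p] k] (τ : M →+* k) :
    HeightOneSpectrum (𝓞 M) where
  asIdeal := PI τ
  isPrime := by
    constructor
    · rw [Ideal.ne_top_iff_one, mem_PI]
      simp
    · intro a b hab
      by_contra hcon
      push Not at hcon
      rw [mem_PI] at hab
      rw [mem_PI, mem_PI] at hcon
      have h1 : ‖τ (a : M)‖ = 1 := le_antisymm (norm_int_le τ a) (not_lt.1 hcon.1)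
      have h2 : ‖τ (b : M)‖ = 1 := le_antisymm (norm_int_le τ b) (not_lt.1 hcon.2)
      have e : ((a * b : 𝓞 M) : M) = (a : M) * b := by push_cast; rfl
      rw [e, map_mul, norm_mul, h1, h2] at hab
      norm_num at hab
  ne_bot := by
    intro h
    have hp1 : (1 : ℝ) < p := by exact_mod_cast (Fact.out : p.Prime).one_lt
    have h2 : (p : 𝓞 M) ∈ PI τ := by
      rw [mem_PI]
      have e : ((p : 𝓞 M) : M) = p := map_natCast (algebraMap (𝓞 M) M) p
      rw [e, map_natCast, norm_p p, div_lt_one (by linarith)]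
      exact hp1
    rw [h, Ideal.mem_bot] at h2
    exact (Nat.cast_ne_zero.2 (Fact.out : p.Prime).ne_zero) h2

variable (p : ℕ) [Fact p.Prime] [NormedAlgebra ℚ_[p] k]

theorem wt_p (τ : M →+* k) : (wt p τ).valuation M (p : M) < 1 := by
  have hp1 : (1 : ℝ) < p := by exact_mod_cast (Fact.out : p.Prime).one_lt
  have h2 : (p : 𝓞 M) ∈ (wt p τ).asIdeal := by
    show (p : 𝓞 M) ∈ PI τ
    rw [mem_PI]
    have e : ((p : 𝓞 M) : M) = p := map_natCast (algebraMap (𝓞 M) M) p
    rw [e, map_natCast, norm_p p, div_lt_one (by linarith)]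
    exact hp1
  have h3 := ((wt p τ).valuation_lt_one_iff_mem (K := M) (p : 𝓞 M)).2 h2
  have e : ((p : 𝓞 M) : M) = p := map_natCast (algebraMap (𝓞 M) M) p
  have h4 : (wt p τ).valuation M ((p : 𝓞 M) : M) < 1 := h3
  rwa [e] at h4

theorem norm_one_of_notMem (τ : M →+* k) (d : (wt p τ).asIdeal.primeCompl) :
    ‖τ ((d : 𝓞 M) : M)‖ = 1 := by
  have h : (d : 𝓞 M) ∉ PI τ := d.2
  rw [mem_PI] at h
  exact le_antisymm (norm_int_le τ _) (not_lt.1 h)

theorem norm_le_one_of_val (τ : M →+* k) {b : M} (hb : (wt p τ).valuation M b ≤ 1) :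
    ‖τ b‖ ≤ 1 := by
  obtain ⟨n, d, h⟩ := (wt p τ).exists_primeCompl_mul_eq_of_integer b hb
  have h1 : ‖τ b‖ * ‖τ ((d : 𝓞 M) : M)‖ = ‖τ (n : M)‖ := by
    rw [← norm_mul, ← map_mul]
    exact congrArg (fun z => ‖τ z‖) h
  rw [norm_one_of_notMem, mul_one] at h1
  rw [h1]
  exact norm_int_le τ n

theorem norm_small_of_val (τ : M →+* k) {b : M}
    (hb : (wt p τ).valuation M b ≤ (wt p τ).valuation M ((p : M) ^ 3)) :
    ‖τ b‖ ≤ (1 / p : ℝ) ^ 3 := by
  have hp0 : (p : M) ^ 3 ≠ 0 := pow_ne_zero _ (Nat.cast_ne_zero.2 (Fact.out : p.Prime).ne_zero)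
  have hpR : (0 : ℝ) < p := by exact_mod_cast (Fact.out : p.Prime).pos
  have h1 : (wt p τ).valuation M (b / (p : M) ^ 3) ≤ 1 := by
    rw [map_div₀]
    exact div_le_one_of_le₀ hb zero_le
  have h2 := norm_le_one_of_val p τ h1
  rw [map_div₀, map_pow, map_natCast, norm_div, norm_pow, norm_p p,
    div_le_iff₀ (by positivity), one_mul] at h2
  exact h2

theorem val_of_norm (τ : M →+* k) {x : M} (hx : ‖τ x‖ = 1) : (wt p τ).valuation M x = 1 := by
  have hd : ∀ d : (wt p τ).asIdeal.primeCompl, (wt p τ).valuation M ((d : 𝓞 M) : M) = 1 := by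
    intro d
    exact (wt p τ).valuation_eq_one_iff_notMem.2 d.2
  have hn : ∀ n : 𝓞 M, ‖τ (n : M)‖ = 1 → (wt p τ).valuation M (n : M) = 1 := by
    intro n hn
    refine (wt p τ).valuation_eq_one_iff_notMem.2 ?_
    show n ∉ PI τ
    rw [mem_PI, hn]
    norm_num
  obtain ⟨n, d, h | h⟩ := (wt p τ).exists_primeCompl_mul_eq_or_mul_eq x
  · have h1 : ‖τ x‖ * ‖τ ((d : 𝓞 M) : M)‖ = ‖τ (n : M)‖ := by
      rw [← norm_mul, ← map_mul]
      exact congrArg (fun z => ‖τ z‖) h
    rw [norm_one_of_notMem, mul_one, hx] at h1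
    have h2 : (wt p τ).valuation M x * (wt p τ).valuation M ((d : 𝓞 M) : M) =
        (wt p τ).valuation M (n : M) := by
      rw [← map_mul]
      exact congrArg _ h
    rw [hd, mul_one, hn n h1.symm] at h2
    exact h2
  · have h1 : ‖τ x‖ * ‖τ (n : M)‖ = ‖τ ((d : 𝓞 M) : M)‖ := by
      rw [← norm_mul, ← map_mul]
      exact congrArg (fun z => ‖τ z‖) h
    rw [norm_one_of_notMem, hx, one_mul] at h1
    have h2 : (wt p τ).valuation M x * (wt p τ).valuation M (n : M) =
        (wt p τ).valuation M ((d : 𝓞 M) : M) := by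
      rw [← map_mul]
      exact congrArg _ h
    rw [hd, hn n h1, mul_one] at h2
    exact h2

end norm

section conj

variable {p : ℕ} {K M : Type} [Field K] [Field M] [NumberField M] [Algebra K M]

theorem conj_refl (w : HeightOneSpectrum (𝓞 M)) : ConjP K w w := ⟨1, fun _ => rfl⟩

theorem conj_symm {w v : HeightOneSpectrum (𝓞 M)} (h : ConjP K w v) : ConjP K v w := by
  obtain ⟨g, hg⟩ := h
  refine ⟨g⁻¹, fun y => ?_⟩
  rw [← hg]
  congr 1
  exact g.apply_symm_apply y

theorem conj_trans {w v u : HeightOneSpectrum (𝓞 M)} (h : ConjP K w v) (h' : ConjP K v u) :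
    ConjP K w u := by
  obtain ⟨g, hg⟩ := h
  obtain ⟨g', hg'⟩ := h'
  refine ⟨g * g', fun y => ?_⟩
  rw [← hg', ← hg]
  rfl

theorem locPow_conj {w w₀ : HeightOneSpectrum (𝓞 M)} (g : M ≃ₐ[K] M)
    (hg : ∀ y, w.valuation M (g y) = w₀.valuation M y) (z : M) :
    LocPow p w (g z) ↔ LocPow p w₀ z := by
  constructor
  · rintro ⟨y, hy⟩
    refine ⟨g⁻¹ y, ?_⟩
    have e : g (g⁻¹ y) = y := g.apply_symm_apply y
    rw [← hg, map_sub, map_mul, map_pow, map_one, e]
    exact hy
  · rintro ⟨y, hy⟩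
    refine ⟨g y, ?_⟩
    rw [← map_pow, ← map_mul, ← map_one g, ← map_sub, hg]
    exact hy

theorem ordv_conj {w w₀ : HeightOneSpectrum (𝓞 M)} (g : M ≃ₐ[K] M)
    (hg : ∀ y, w.valuation M (g y) = w₀.valuation M y) (z : M) :
    ordv w (g z) = ordv w₀ z := by
  unfold ordv
  rw [hg]

end conj

open Pool.Agent.Helper49.RSV (weakApproxUnits) in
/-- **D_VAL.** -/
theorem d_val : D_VAL := by
  classical
  intro p hp k _ _ _ K M _ _ _ _ _ δ T R al hR S hSfin hSst hSp hRS
  have hp' : p.Prime := hp.out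
  -- representatives of the orbits
  let st : Setoid (HeightOneSpectrum (𝓞 M)) :=
    ⟨ConjP K, conj_refl, fun h => conj_symm h, fun h h' => conj_trans h h'⟩
  let rep : HeightOneSpectrum (𝓞 M) → HeightOneSpectrum (𝓞 M) := fun w => (Quotient.mk st w).out
  have hrep : ∀ w, ConjP K w (rep w) := fun w => conj_symm (Quotient.mk_out (s := st) w)
  have hrep' : ∀ w w', ConjP K w w' → rep w = rep w' := fun w w' h => by
    show (Quotient.mk st w).out = (Quotient.mk st w').out
    rw [Quotient.sound (s := st) h]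
  choose g hg using hrep
  have hrepR : ∀ w, w ∈ R → rep w ∈ R := fun w hw => hR.stable w hw _ (conj_symm ⟨g w, hg w⟩)
  have hθ : ∀ w, ∃ θ : Mˣ → ZMod p, w ∈ R → (∀ x y, θ (x * y) = θ x + θ y) ∧
      (∀ x, θ x = 0 ↔ ∃ i : ℕ, LocPow p w ((x : M) * (algebraMap K M (al w)) ^ i)) ∧
      ∀ c : ZMod p, ∃ x, θ x = c := by
    intro w
    by_cases hw : w ∈ R
    · obtain ⟨θ, h⟩ := exists_theta w hp' (hR.norm w hw) _ (hR.unif w hw)
      exact ⟨θ, fun _ => h⟩
    · exact ⟨fun _ => 0, fun h => absurd h hw⟩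
  choose θ hθ using hθ
  let act : (M ≃ₐ[K] M) → Mˣ → Mˣ := fun s x => Units.map ((s : M →+* M) : M →* M) x
  have hact : ∀ s x, ((act s x : Mˣ) : M) = s (x : M) := fun s x => rfl
  let v : Mˣ → HeightOneSpectrum (𝓞 M) → ZMod p := fun x w =>
    if w ∈ R then θ (rep w) (act (g w)⁻¹ x) else ((ordv w (x : M) : ℤ) : ZMod p)
  have hvR : ∀ x w, w ∈ R → v x w = θ (rep w) (act (g w)⁻¹ x) := fun x w hw => if_pos hw
  have hvN : ∀ x w, w ∉ R → v x w = ((ordv w (x : M) : ℤ) : ZMod p) := fun x w hw => if_neg hw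
  have hadd : ∀ x y w, v (x * y) w = v x w + v y w := by
    intro x y w
    by_cases hw : w ∈ R
    · rw [hvR _ _ hw, hvR _ _ hw, hvR _ _ hw, ← (hθ (rep w) (hrepR w hw)).1]
      congr 1
      exact map_mul _ _ _
    · rw [hvN _ _ hw, hvN _ _ hw, hvN _ _ hw, Units.val_mul, ordv_mul w x.ne_zero y.ne_zero]
      push_cast
      ring
  have hker : ∀ (x : Mˣ) w, v x w = 0 ↔ LocD p R al w (x : M) := by
    intro x w
    by_cases hw : w ∈ R
    · rw [hvR _ _ hw, (hθ (rep w) (hrepR w hw)).2.1]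
      have h1 : ∀ i : ℕ, LocPow p (rep w) ((act (g w)⁻¹ x : Mˣ) *
          (algebraMap K M (al (rep w))) ^ i) ↔
          LocPow p w ((x : M) * (algebraMap K M (al w)) ^ i) := by
        intro i
        rw [← locPow_conj (g w) (hg w), map_mul, map_pow, AlgEquiv.commutes, hact,
          hR.const w hw (rep w) (conj_symm ⟨g w, hg w⟩)]
        have e : (g w) ((g w)⁻¹ (x : M)) = x := (g w).apply_symm_apply _
        rw [e]
      rw [exists_congr h1]
      constructor
      · intro h; exact ⟨fun h' => absurd hw h', fun _ => h⟩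
      · intro h; exact h.2 hw
    · rw [hvN _ _ hw, ZMod.intCast_zmod_eq_zero_iff_dvd]
      constructor
      · intro h; exact ⟨fun _ => h, fun h' => absurd h' hw⟩
      · intro h; exact h.1 hw
  have hcong : ∀ (x y : Mˣ) w, w.valuation M ((x : M) / y - 1) < 1 → v x w = v y w := by
    intro x y w h
    have h1 : v (x / y) w = 0 := by
      rw [hker]
      have e : ((x / y : Mˣ) : M) = (x : M) / y := Units.val_div_eq_div_val x y
      rw [e]
      refine ⟨fun _ => ?_, fun _ => ⟨0, ?_⟩⟩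
      · have h0 := val_eq_one_of_sub w h
        rw [← ordv_eq_zero_iff w (div_ne_zero x.ne_zero y.ne_zero)] at h0
        rw [h0]
        exact dvd_zero _
      · rw [pow_zero, mul_one]
        exact locPow_of_sub w h
    have h2 := hadd (x / y) y w
    rw [div_mul_cancel, h1, zero_add] at h2
    exact h2
  have hvsurj : ∀ w (c : ZMod p), ∃ x, v x w = c := by
    intro w c
    by_cases hw : w ∈ R
    · obtain ⟨x, hx⟩ := (hθ (rep w) (hrepR w hw)).2.2 c
      refine ⟨act (g w) x, ?_⟩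
      rw [hvR _ _ hw]
      have e : act (g w)⁻¹ (act (g w) x) = x := by
        apply Units.ext
        rw [hact, hact]
        exact (g w).symm_apply_apply _
      rw [e, hx]
    · obtain ⟨π, hπ⟩ := w.valuation_exists_uniformizer M
      have hπ0 : π ≠ 0 := by
        rintro rfl
        rw [map_zero] at hπ
        exact absurd hπ.symm (by simp)
      have hNZ : NeZero p := ⟨hp'.ne_zero⟩
      refine ⟨Units.mk0 (π ^ c.val) (pow_ne_zero _ hπ0), ?_⟩
      rw [hvN _ _ hw, Units.val_mk0, ordv_pow]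
      have e : ordv w π = 1 := by
        unfold ordv
        rw [hπ, WithZero.log_exp]
        norm_num
      rw [e, mul_one, Int.cast_natCast, ZMod.natCast_zmod_val]
  have hclose : ∀ (x y : Mˣ) (w : HeightOneSpectrum (𝓞 M)),
      w.valuation M ((y : M) - x) < w.valuation M (x : M) →
      w.valuation M ((y : M) / x - 1) < 1 := by
    intro x y w h
    have e : (y : M) / x - 1 = ((y : M) - x) / x := by
      have := x.ne_zero
      field_simp
    rw [e, map_div₀]
    exact (div_lt_one₀ (zero_lt_iff.2 ((Valuation.ne_zero_iff _).2 x.ne_zero))).2 h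
  refine ⟨∏ w ∈ hSfin.toFinset, w.asIdeal, v, ?_, fun x w _ => hker x w⟩
  refine ⟨hSfin, hSst, hSp, fun x y w _ => hadd x y w, ?_, ?_, ?_, ?_, ?_, ?_⟩
  · -- equivariance
    intro x w hw w' hww'
    have hc : ConjP K w w' := ⟨δ, hww'⟩
    by_cases hwR : w ∈ R
    · have hw'R : w' ∈ R := hR.stable w hwR w' (conj_symm hc)
      have hrr : rep w' = rep w := (hrep' _ _ hc).symm
      rw [hvR _ _ hwR, hvR _ _ hw'R, hrr]
      have h1 : ∀ y, (rep w).valuation M (((g w)⁻¹ * δ * g w') y) = (rep w).valuation M y := by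
        intro y
        rw [← hg w]
        have e : (g w) (((g w)⁻¹ * δ * g w') y) = δ (g w' y) :=
          (g w).apply_symm_apply (δ (g w' y))
        rw [e, hww', hg w', hrr]
      have h2 := hR.free (rep w) (hrepR w hwR) _ h1
      have h3 : (g w)⁻¹ * δ = (g w')⁻¹ := by
        rw [eq_inv_iff_mul_eq_one]
        exact h2
      congr 1
      apply Units.ext
      rw [hact, hact, ← h3]
      rfl
    · have hw'R : w' ∉ R := fun h => hwR (hR.stable w' h w hc)
      rw [hvN _ _ hwR, hvN _ _ hw'R]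
      have : ordv w (δ (x : M)) = ordv w' (x : M) := ordv_conj δ hww' _
      rw [← this]
      rfl
  · -- surjectivity
    intro c
    choose x hx using fun w => hvsurj w (c w)
    obtain ⟨y, hy⟩ := weakApproxUnits hSfin.toFinset x (fun _ => 1) (fun _ => one_ne_zero)
    refine ⟨y, fun w hw => ?_⟩
    rw [← hx w]
    exact hcong _ _ _ (hclose _ _ _ (hy w (hSfin.mem_toFinset.2 hw)).2)
  · -- approximation
    intro x hx
    let A : Set (HeightOneSpectrum (𝓞 M)) := {w | ∃ τ ∈ (above T : Set (M →+* k)), w = wt p τ}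
    have hp0 : (p : M) ^ 3 ≠ 0 := pow_ne_zero _ (Nat.cast_ne_zero.2 hp'.ne_zero)
    obtain ⟨y, hy⟩ := weakApproxUnits hSfin.toFinset (fun w => if w ∈ A then x else 1)
      (fun w => w.valuation M ((p : M) ^ 3)) (fun w => (Valuation.ne_zero_iff _).2 hp0)
    refine ⟨y, fun w hw => ?_, fun τ hτ => ?_⟩
    · have h1 := hcong _ _ _ (hclose _ _ _ (hy w (hSfin.mem_toFinset.2 hw)).2)
      rw [h1]
      by_cases hwA : w ∈ A
      · rw [if_pos hwA]
        obtain ⟨τ, hτ, rfl⟩ := hwA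
        have h2 : wt p τ ∉ R := fun h => by
          have h3 := hR.copr _ h
          exact absurd h3 (wt_p p τ).ne
        rw [hvN _ _ h2, (ordv_eq_zero_iff _ x.ne_zero).2 (val_of_norm p τ (hx τ hτ)),
          Int.cast_zero]
      · rw [if_neg hwA, hker]
        refine ⟨fun _ => ?_, fun _ => ⟨0, ?_⟩⟩
        · rw [Units.val_one, (ordv_eq_zero_iff w one_ne_zero).2 (map_one _)]
          exact dvd_zero _
        · rw [pow_zero, mul_one, Units.val_one]
          exact locPow_of_sub w (by rw [sub_self, map_zero]; exact zero_lt_one)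
    · have hwS : wt p τ ∈ S := hSp _ (wt_p p τ)
      have hwA : wt p τ ∈ A := ⟨τ, hτ, rfl⟩
      have h1 := (hy _ (hSfin.mem_toFinset.2 hwS)).1
      rw [if_pos hwA] at h1
      have h2 := norm_small_of_val p τ h1
      have e : (((y / x : Mˣ) : M)) - 1 = ((y : M) - x) / x := by
        rw [Units.val_div_eq_div_val]
        have := x.ne_zero
        field_simp
      have e2 : τ ((y / x : Mˣ) : M) - 1 = τ ((y : M) - x) / τ (x : M) := by
        rw [← map_div₀, ← e, map_sub, map_one]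
      rw [e2, norm_div, hx τ hτ, div_one]
      exact h2
  · -- nonzero
    rw [Ne, ← Ideal.zero_eq_bot, Finset.prod_eq_zero_iff]
    rintro ⟨w, -, hw⟩
    exact w.ne_bot hw
  · -- support
    intro w hw
    by_contra hwS
    apply hw
    rw [← Ideal.isCoprime_iff_sup_eq]
    refine IsCoprime.prod_right fun w' hw' => ?_
    have hne : w ≠ w' := by
      rintro rfl
      exact hwS (hSfin.mem_toFinset.1 hw')
    rw [Ideal.isCoprime_iff_sup_eq]
    have h1 : w.asIdeal ≠ w'.asIdeal := fun h => hne (HeightOneSpectrum.ext h)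
    exact w.isMaximal.coprime_of_ne w'.isMaximal h1
  · -- ray
    intro α x hxα hα w hw
    have h1 : α - 1 ∈ w.asIdeal := by
      have h2 : (∏ w ∈ hSfin.toFinset, w.asIdeal) ≤ w.asIdeal := by
        refine Ideal.le_of_dvd ?_
        exact Finset.dvd_prod_of_mem _ (hSfin.mem_toFinset.2 hw)
      exact h2 hα
    have h3 : w.valuation M ((x : M) / ((1 : Mˣ) : M) - 1) < 1 := by
      rw [Units.val_one, div_one, hxα]
      have h4 := (w.valuation_lt_one_iff_mem (K := M) (α - 1)).2 h1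
      have e : (((α - 1 : 𝓞 M)) : M) = (α : M) - 1 := by push_cast; rfl
      have h5 : w.valuation M (((α - 1 : 𝓞 M)) : M) < 1 := h4
      rwa [e] at h5
    rw [hcong x 1 w h3, hker]
    refine ⟨fun _ => ?_, fun _ => ⟨0, ?_⟩⟩
    · rw [Units.val_one, (ordv_eq_zero_iff w one_ne_zero).2 (map_one _)]
      exact dvd_zero _
    · rw [pow_zero, mul_one, Units.val_one]
      exact locPow_of_sub w (by rw [sub_self, map_zero]; exact zero_lt_one)

end Pool.Agent.Helper42.RD
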