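import Pool.Agent.Helper42.RD.Goals2
import Pool.Agent.Helper42.RD.VAL
import Pool.Agent.Helper42.RS.RAM
import Pool.Agent.Helper13.RD.ORB
import Pool.Agent.Helper40.RD.TRF

/-!
# Project RD (MP_fc6b1e_nt): packet E_EXA

Existence of the Kummer generator `a`.
-/

namespace Pool.Agent.Helper42.RD

open NumberField Polynomial Module IsDedekindDomain Pool.Agent.Helper51.SigLeo
open Pool.Agent.Helper51.RP
open Pool.Agent.Helper40.RS (bel gw bel_smul lies conj_of_bel free_gw absNorm_free val_smul)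
open Pool.Agent.Helper13.RD (eq_gw ram_free)
open Pool.Agent.Helper40.RD (bel_of_above ordW)

section galois

variable {K M : Type} [Field K] [NumberField K] [Field M] [NumberField M] [Algebra K M]
  [IsGalois K M]

theorem bel_eq_of_conj {w v : HeightOneSpectrum (𝓞 M)} (h : ConjP K w v) : bel K w = bel K v := by
  obtain ⟨g, hg⟩ := h
  rw [eq_gw g hg]
  exact bel_smul g v (gw g v) rfl

theorem conj_of_bel' {w v : HeightOneSpectrum (𝓞 M)} (h : bel K w = bel K v) : ConjP K w v :=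
  conj_of_bel w v h

theorem free_of_conj {w v : HeightOneSpectrum (𝓞 M)} (h : ConjP K w v) (hv : FreeP K v) :
    FreeP K w := by
  obtain ⟨g, hg⟩ := h
  rw [eq_gw g hg]
  exact free_gw g v hv

theorem finite_bel (q : HeightOneSpectrum (𝓞 K)) :
    {Q : HeightOneSpectrum (𝓞 M) | bel K Q = q}.Finite := by
  rcases Set.eq_empty_or_nonempty {Q : HeightOneSpectrum (𝓞 M) | bel K Q = q} with h | ⟨Q₀, hQ₀⟩
  · rw [h]; exact Set.finite_empty
  · refine (Set.finite_range (fun g : M ≃ₐ[K] M => gw g Q₀)).subset ?_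
    intro Q hQ
    obtain ⟨g, hg⟩ := conj_of_bel' (K := K) (w := Q) (v := Q₀) (hQ.trans hQ₀.symm)
    exact ⟨g, (eq_gw g hg).symm⟩

end galois

section above

variable {M M₁ : Type} [Field M] [NumberField M] [Field M₁] [NumberField M₁] [Algebra M M₁]

theorem above_bel (W : HeightOneSpectrum (𝓞 M₁)) : Above W (bel M W) := rfl

theorem exists_bel (w : HeightOneSpectrum (𝓞 M)) :
    ∃ W : HeightOneSpectrum (𝓞 M₁), bel M W = w := by
  obtain ⟨W, hW⟩ := Pool.Agent.Helper42.RS.exists_above (H := M₁) w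
  refine ⟨W, HeightOneSpectrum.ext ?_⟩
  exact hW.over.symm

end above

section tower

variable {K M M₁ : Type} [Field K] [NumberField K] [Field M] [NumberField M] [Field M₁]
  [NumberField M₁] [Algebra K M] [Algebra M M₁] [Algebra K M₁] [IsScalarTower K M M₁]

theorem bel_bel (W : HeightOneSpectrum (𝓞 M₁)) : bel K (bel M W) = bel K W := by
  apply HeightOneSpectrum.ext
  show (W.asIdeal.comap (algebraMap (𝓞 M) (𝓞 M₁))).comap (algebraMap (𝓞 K) (𝓞 M)) =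
    W.asIdeal.comap (algebraMap (𝓞 K) (𝓞 M₁))
  rw [Ideal.comap_comap]
  congr 1
  ext x
  show algebraMap M M₁ (algebraMap K M (x : K)) = algebraMap K M₁ (x : K)
  rw [← IsScalarTower.algebraMap_apply]

end tower

/-- If `μ^p = 1`, `μ ≠ 1` then `μ - 1` divides `p`. -/
theorem sub_one_dvd {A : Type} [CommRing A] [IsDomain A] {p : ℕ} {μ : A} (h1 : μ ^ p = 1)
    (h2 : μ ≠ 1) : μ - 1 ∣ (p : A) := by
  have h3 : ∑ i ∈ Finset.range p, μ ^ i = 0 := by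
    have h := mul_geom_sum μ p
    rw [h1, sub_self] at h
    exact (mul_eq_zero.1 h).resolve_left (sub_ne_zero.2 h2)
  have h4 : (p : A) = - ∑ i ∈ Finset.range p, (μ ^ i - 1) := by
    rw [Finset.sum_sub_distrib, h3]
    simp
  rw [h4, dvd_neg]
  refine Finset.dvd_sum fun i _ => ?_
  simpa using sub_dvd_pow_sub_pow μ 1 i

/-- A prime of `K₁` whose norm downstairs is `1` modulo `p` has trivial decomposition group. -/
theorem free_of_norm {p : ℕ} [Fact p.Prime] {K K₁ : Type} [Field K] [NumberField K] [Field K₁]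
    [NumberField K₁] [Algebra K K₁] {ε : K₁} (hε : IsPrimitiveRoot ε p)
    (hgen : ∀ σ : K₁ ≃ₐ[K] K₁, σ ε = ε → σ = 1) (Q : HeightOneSpectrum (𝓞 K₁))
    (hQp : Q.valuation K₁ (p : K₁) = 1)
    (hN : p ∣ Ideal.absNorm (bel K Q).asIdeal - 1) : FreeP K Q := by
  have hp : p.Prime := Fact.out
  intro σ hσ
  apply hgen
  by_contra hne
  let e : 𝓞 K₁ := ⟨ε, hε.isIntegral hp.pos⟩
  have hepow : e ^ p = 1 := by
    apply RingOfIntegers.ext
    show ε ^ p = 1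
    exact hε.pow_eq_one
  have hpQ : (p : 𝓞 K₁) ∉ Q.asIdeal := by
    rw [← Q.valuation_eq_one_iff_notMem (K := K₁)]
    have h : ((p : 𝓞 K₁) : K₁) = p := map_natCast (algebraMap (𝓞 K₁) K₁) p
    show Q.valuation K₁ ((p : 𝓞 K₁) : K₁) = 1
    rw [h, hQp]
  -- an element of order p in the residue field of K
  obtain ⟨c, i, hci⟩ : ∃ (c : 𝓞 K) (i : ℕ), e - algebraMap (𝓞 K) (𝓞 K₁) (c ^ i) ∈ Q.asIdeal := by
    have hqm : (bel K Q).asIdeal.IsMaximal := (bel K Q).isMaximal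
    have hQm : Q.asIdeal.IsMaximal := Q.isMaximal
    let _ : Field (𝓞 K ⧸ (bel K Q).asIdeal) := Ideal.Quotient.field _
    let _ : Field (𝓞 K₁ ⧸ Q.asIdeal) := Ideal.Quotient.field _
    have hcard : Nat.card (𝓞 K ⧸ (bel K Q).asIdeal)ˣ = Ideal.absNorm (bel K Q).asIdeal - 1 := by
      rw [Nat.card_units, Ideal.absNorm_apply, Submodule.cardQuot_apply]
    obtain ⟨u, hu⟩ := exists_prime_orderOf_dvd_card' p (hcard ▸ hN)
    obtain ⟨c, hc⟩ := Ideal.Quotient.mk_surjective (u : 𝓞 K ⧸ (bel K Q).asIdeal)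
    have hup : IsPrimitiveRoot (u : 𝓞 K ⧸ (bel K Q).asIdeal) p := by
      have h := IsPrimitiveRoot.orderOf u
      rw [hu] at h
      exact IsPrimitiveRoot.coe_units_iff.2 h
    have hup2 := hup.map_of_injective
      (algebraMap (𝓞 K ⧸ (bel K Q).asIdeal) (𝓞 K₁ ⧸ Q.asIdeal)).injective
    have hNZ : NeZero p := ⟨hp.ne_zero⟩
    obtain ⟨i, -, hi⟩ := hup2.eq_pow_of_pow_eq_one (ξ := Ideal.Quotient.mk Q.asIdeal e) (by
      rw [← map_pow, hepow, map_one])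
    refine ⟨c, i, ?_⟩
    rw [← Ideal.Quotient.eq_zero_iff_mem, map_sub, sub_eq_zero, ← hi, ← hc, map_pow, map_pow]
    rfl
  -- apply σ
  have hmem : ∀ x y : 𝓞 K₁, (y : K₁) = σ (x : K₁) → x ∈ Q.asIdeal → y ∈ Q.asIdeal := by
    intro x y hxy hx
    rw [← Q.valuation_lt_one_iff_mem (K := K₁)] at hx ⊢
    have h : Q.valuation K₁ (y : K₁) = Q.valuation K₁ (x : K₁) := by rw [hxy, hσ]
    exact lt_of_eq_of_lt h hx
  let e' : 𝓞 K₁ := ⟨σ ε, (map_isIntegral_int σ (hε.isIntegral hp.pos))⟩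
  have h1 : e' - algebraMap (𝓞 K) (𝓞 K₁) (c ^ i) ∈ Q.asIdeal := by
    refine hmem _ _ ?_ hci
    show σ ε - algebraMap K K₁ ((c ^ i : 𝓞 K) : K) = σ (ε - algebraMap K K₁ ((c ^ i : 𝓞 K) : K))
    rw [map_sub, AlgEquiv.commutes]
  have h2 : e' - e ∈ Q.asIdeal := by
    have h := Q.asIdeal.sub_mem h1 hci
    rwa [sub_sub_sub_cancel_right] at h
  have hNZ : NeZero p := ⟨hp.ne_zero⟩
  obtain ⟨n, -, hn⟩ := hε.eq_pow_of_pow_eq_one (ξ := σ ε) (by
    rw [← map_pow, hε.pow_eq_one, map_one])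
  have hμ : (e' - e) * (e ^ (p - 1)) = (e ^ (p - 1) * e') - 1 := by
    have h : e * e ^ (p - 1) = 1 := by
      rw [← pow_succ', Nat.sub_add_cancel hp.one_le, hepow]
    linear_combination -h
  have h3 : e ^ (p - 1) * e' - 1 ∈ Q.asIdeal := by
    rw [← hμ]
    exact Q.asIdeal.mul_mem_right _ h2
  have h4 : (e ^ (p - 1) * e') ^ p = 1 := by
    have he' : e' ^ p = 1 := by
      apply RingOfIntegers.ext
      show (σ ε) ^ p = 1
      rw [← map_pow, hε.pow_eq_one, map_one]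
    rw [mul_pow, he', mul_one, ← pow_mul, mul_comm, pow_mul, hepow, one_pow]
  have h5 : e ^ (p - 1) * e' ≠ 1 := by
    intro h
    apply hne
    have h6 : e' = e := by
      have h7 : e * e ^ (p - 1) = 1 := by
        rw [← pow_succ', Nat.sub_add_cancel hp.one_le, hepow]
      calc e' = (e * e ^ (p - 1)) * e' := by rw [h7, one_mul]
        _ = e * (e ^ (p - 1) * e') := by ring
        _ = e := by rw [h, mul_one]
    exact congrArg (fun z : 𝓞 K₁ => (z : K₁)) h6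
  exact hpQ (Ideal.mem_of_dvd _ (sub_one_dvd h4 h5) h3)

theorem val_le_of_mem_sq {F : Type} [Field F] [NumberField F] (Q : HeightOneSpectrum (𝓞 F))
    (x : 𝓞 F) (h : x ∈ Q.asIdeal ^ 2) : Q.valuation F (x : F) ≤ WithZero.exp (-2 : ℤ) := by
  have h1 := (Q.intValuation_le_pow_iff_mem x 2).2 h
  have h2 : Q.valuation F (x : F) = Q.intValuation x := Q.valuation_of_algebraMap x
  rw [h2]
  exact_mod_cast h1

theorem totallyComplex_of {K L : Type} [Field K] [NumberField K] [IsTotallyComplex K] [Field L]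
    [NumberField L] [Algebra K L] : IsTotallyComplex L := by
  refine ⟨fun v => ?_⟩
  rw [← InfinitePlace.not_isReal_iff_isComplex]
  intro h
  have h1 := h.comap (algebraMap K L)
  exact (InfinitePlace.not_isReal_iff_isComplex.2 (IsTotallyComplex.isComplex _)) h1

theorem finite_dvd {F : Type} [Field F] [NumberField F] (x : 𝓞 F) (hx : x ≠ 0) :
    {Q : HeightOneSpectrum (𝓞 F) | x ∈ Q.asIdeal}.Finite := by
  have h := Ideal.finite_factors (I := Ideal.span {x}) (by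
    rw [Ne, Ideal.zero_eq_bot, Ideal.span_singleton_eq_bot]; exact hx)
  refine h.subset fun Q hQ => ?_
  show Q.asIdeal ∣ Ideal.span {x}
  rw [Ideal.dvd_span_singleton]
  exact hQ


theorem natCast_mem_iff {F : Type} [Field F] [NumberField F] (Q : HeightOneSpectrum (𝓞 F))
    (n : ℕ) : (n : 𝓞 F) ∈ Q.asIdeal ↔ Q.valuation F (n : F) < 1 := by
  have e : algebraMap (𝓞 F) F (n : 𝓞 F) = n := map_natCast _ n
  rw [← e]
  exact (Q.valuation_lt_one_iff_mem (K := F) _).symm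

theorem natCast_notMem_iff {F : Type} [Field F] [NumberField F] (Q : HeightOneSpectrum (𝓞 F))
    (n : ℕ) : (n : 𝓞 F) ∉ Q.asIdeal ↔ Q.valuation F (n : F) = 1 := by
  have e : algebraMap (𝓞 F) F (n : 𝓞 F) = n := map_natCast _ n
  rw [← e]
  exact (Q.valuation_eq_one_iff_notMem (K := F)).symm

theorem crt_mod {F : Type} [Field F] [NumberField F] (c : 𝓞 F) (hc : c ≠ 0)
    (Fs : Finset (HeightOneSpectrum (𝓞 F))) (hcF : ∀ Q ∈ Fs, c ∉ Q.asIdeal)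
    (t : HeightOneSpectrum (𝓞 F) → 𝓞 F) :
    ∃ (β : 𝓞 F) (𝔫 : Ideal (𝓞 F)), 𝔫 ≠ ⊥ ∧ (∀ z ∈ 𝔫, c ^ 3 ∣ z) ∧
      (∀ z ∈ 𝔫, ∀ Q ∈ Fs, z ∈ Q.asIdeal ^ 2) ∧ c ^ 3 ∣ β - 1 ∧
      (∀ Q ∈ Fs, β - t Q ∈ Q.asIdeal ^ 2) ∧
      ∀ Q : HeightOneSpectrum (𝓞 F), Q.asIdeal ⊔ 𝔫 = ⊤ ∨ c ∈ Q.asIdeal ∨ Q ∈ Fs := by
  classical
  obtain ⟨β₂, hβ₂⟩ := IsDedekindDomain.exists_forall_sub_mem_ideal (s := Fs)
    (fun Q : HeightOneSpectrum (𝓞 F) => Q.asIdeal) (fun _ => 2)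
    (fun Q _ => Q.prime) (fun Q _ Q' _ hne h => hne (HeightOneSpectrum.ext h))
    (fun Q => t Q.1)
  obtain ⟨I₁, hI₁⟩ : ∃ I₁ : Ideal (𝓞 F), I₁ = Ideal.span {c ^ 3} := ⟨_, rfl⟩
  obtain ⟨I₂, hI₂⟩ : ∃ I₂ : Ideal (𝓞 F), I₂ = ∏ Q ∈ Fs, Q.asIdeal ^ 2 := ⟨_, rfl⟩
  have hI₂F : ∀ Q ∈ Fs, I₂ ≤ Q.asIdeal ^ 2 := fun Q hQ => by
    rw [hI₂]
    exact Ideal.le_of_dvd
      (Finset.dvd_prod_of_mem (fun Q : HeightOneSpectrum (𝓞 F) => Q.asIdeal ^ 2) hQ)
  have hcop : IsCoprime I₁ I₂ := by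
    rw [hI₂]
    refine IsCoprime.prod_right fun Q hQ => ?_
    rw [hI₁, ← Ideal.span_singleton_pow]
    refine IsCoprime.pow ?_
    rw [Ideal.isCoprime_iff_sup_eq, sup_comm]
    by_contra hne
    have h1 := Q.isMaximal.eq_of_le hne le_sup_left
    apply hcF Q hQ
    rw [h1]
    exact Ideal.mem_sup_right (Ideal.mem_span_singleton_self _)
  obtain ⟨x, hx, y, hy, hxy⟩ := Ideal.isCoprime_iff_exists.1 hcop
  have hβ1 : (y + x * β₂) - 1 ∈ I₁ := by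
    have e : (y + x * β₂) - 1 = x * (β₂ - 1) := by linear_combination hxy
    rw [e]; exact I₁.mul_mem_right _ hx
  have hβ2 : (y + x * β₂) - β₂ ∈ I₂ := by
    have e : (y + x * β₂) - β₂ = y * (1 - β₂) := by linear_combination β₂ * hxy
    rw [e]; exact I₂.mul_mem_right _ hy
  refine ⟨y + x * β₂, I₁ * I₂, ?_, ?_, ?_, ?_, ?_, ?_⟩
  · rw [← Ideal.zero_eq_bot, hI₁, hI₂]
    refine mul_ne_zero ?_ ?_
    · rw [Ideal.zero_eq_bot, Ne, Ideal.span_singleton_eq_bot]; exact pow_ne_zero _ hc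
    · refine Finset.prod_ne_zero_iff.2 fun Q _ => ?_
      exact pow_ne_zero 2 Q.ne_bot
  · intro z hz
    rw [← Ideal.mem_span_singleton, ← hI₁]
    exact (Ideal.mul_le_left : I₁ * I₂ ≤ I₁) hz
  · intro z hz Q hQ
    exact hI₂F Q hQ ((Ideal.mul_le_right : I₁ * I₂ ≤ I₂) hz)
  · rw [← Ideal.mem_span_singleton, ← hI₁]; exact hβ1
  · intro Q hQ
    have h1 := hβ₂ Q hQ
    have h2 := hI₂F Q hQ hβ2
    have e : (y + x * β₂) - t Q = ((y + x * β₂) - β₂) + (β₂ - t Q) := by ring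
    rw [e]; exact Ideal.add_mem _ h2 h1
  · intro Q
    by_cases h : Q.asIdeal ⊔ I₁ * I₂ = ⊤
    · exact Or.inl h
    · right
      have h1 := Q.isMaximal.eq_of_le h le_sup_left
      have h2 : I₁ * I₂ ≤ Q.asIdeal := by rw [h1]; exact le_sup_right
      have hQp : Q.asIdeal.IsPrime := Q.isPrime
      rcases hQp.mul_le.1 h2 with h3 | h3
      · left
        have h4 : c ^ 3 ∈ Q.asIdeal := h3 (by rw [hI₁]; exact Ideal.mem_span_singleton_self _)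
        exact hQp.mem_of_pow_mem _ h4
      · right
        rw [hI₂] at h3
        obtain ⟨Q', hQ', h4⟩ := (Ideal.IsPrime.prod_le hQp).1 h3
        have h5 : Q'.asIdeal ≤ Q.asIdeal := by
          rw [pow_two] at h4
          rcases hQp.mul_le.1 h4 with h | h <;> exact h
        have h6 : Q'.asIdeal = Q.asIdeal := Q'.isMaximal.eq_of_le Q.isPrime.ne_top h5
        have h7 : Q' = Q := HeightOneSpectrum.ext h6
        rw [← h7]; exact hQ'

theorem val_of_sub_mem_sq {F : Type} [Field F] [NumberField F] (Q : HeightOneSpectrum (𝓞 F))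
    (z ϖ : 𝓞 F) (hϖ : Q.intValuation ϖ = WithZero.exp (-1 : ℤ)) (hz : z - ϖ ∈ Q.asIdeal ^ 2) :
    Q.valuation F (z : F) = WithZero.exp (-1 : ℤ) := by
  have h2 : Q.valuation F (ϖ : F) = Q.intValuation ϖ := Q.valuation_of_algebraMap ϖ
  have hvϖ : Q.valuation F (ϖ : F) = WithZero.exp (-1 : ℤ) := by rw [h2]; exact hϖ
  have h1 := val_le_of_mem_sq Q _ hz
  rw [← hvϖ]
  refine Valuation.map_eq_of_sub_lt _ ?_
  have e : ((z - ϖ : 𝓞 F) : F) = (z : F) - ϖ := rfl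
  rw [← e, hvϖ]
  refine lt_of_le_of_lt h1 ?_
  rw [WithZero.exp_lt_exp]; norm_num

/-- The element `b` (for given targets `t`). -/
theorem exists_b (hBEX : E_BEX) (p : ℕ) [Fact p.Prime] (K₁ M₁ : Type) [Field K₁] [NumberField K₁]
    [IsTotallyComplex K₁] [Field M₁] [NumberField M₁] [Algebra K₁ M₁] [IsGalois K₁ M₁]
    (hnt : 1 < finrank K₁ M₁) (h3 : p = 2 → 3 ≤ finrank K₁ M₁)
    (Fs : Finset (HeightOneSpectrum (𝓞 K₁))) (hpF : ∀ Q ∈ Fs, (p : 𝓞 K₁) ∉ Q.asIdeal)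
    (t : HeightOneSpectrum (𝓞 K₁) → 𝓞 K₁) (Q₀ : HeightOneSpectrum (𝓞 K₁)) (hQ₀ : Q₀ ∈ Fs)
    (ht : Q₀.intValuation (t Q₀) = WithZero.exp (-1 : ℤ)) :
    ∃ b : 𝓞 K₁, b ≠ 0 ∧ (p : 𝓞 K₁) ^ 3 ∣ b - 1 ∧ (∀ Q ∈ Fs, b - t Q ∈ Q.asIdeal ^ 2) ∧
      ∀ (W : HeightOneSpectrum (𝓞 M₁)) (Q : HeightOneSpectrum (𝓞 K₁)), Above W Q →
        FreeP K₁ W → Q ∉ Fs → (p : ℤ) ∣ ordv Q (b : K₁) := by
  have hp' : p.Prime := Fact.out
  have hpK₁ : (p : 𝓞 K₁) ≠ 0 := Nat.cast_ne_zero.2 hp'.ne_zero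
  obtain ⟨β, 𝔫, h𝔫, h𝔫p, h𝔫F, hβ1, hβt, hcase⟩ := crt_mod (p : 𝓞 K₁) hpK₁ Fs hpF t
  have hβ0 : β ≠ 0 := by
    intro h0
    have h1 := val_of_sub_mem_sq Q₀ β (t Q₀) ht (hβt Q₀ hQ₀)
    rw [h0] at h1
    have h2 : Q₀.valuation K₁ ((0 : 𝓞 K₁) : K₁) = 0 := by
      have h3 : ((0 : 𝓞 K₁) : K₁) = 0 := rfl
      rw [h3, map_zero]
    rw [h2] at h1
    exact WithZero.exp_ne_zero h1.symm
  obtain ⟨b₁, hb₁0, hb₁, hb₁ord⟩ := hBEX p K₁ M₁ hnt h3 𝔫 h𝔫 β hβ0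
  have e : ∀ s : 𝓞 K₁, β * b₁ - s = β * (b₁ - 1) + (β - s) := fun s => by ring
  have hd : (p : 𝓞 K₁) ^ 3 ∣ β * b₁ - 1 := by
    rw [e]; exact dvd_add ((h𝔫p _ hb₁).mul_left _) hβ1
  refine ⟨β * b₁, mul_ne_zero hβ0 hb₁0, hd, ?_, ?_⟩
  · intro Q hQ
    rw [e]
    exact Ideal.add_mem _ (Ideal.mul_mem_left _ _ (h𝔫F _ hb₁ Q hQ)) (hβt Q hQ)
  · intro W Q hWQ hfr hQF
    rcases hcase Q with h | h | h
    · exact hb₁ord W Q hWQ hfr h
    · have h1 : β * b₁ - 1 ∈ Q.asIdeal := by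
        refine Ideal.mem_of_dvd _ hd ?_
        exact Ideal.pow_mem_of_mem _ h 3 (by norm_num)
      have h2 : Q.valuation K₁ (((β * b₁ : 𝓞 K₁) : K₁) - 1) < 1 := by
        have h3 : ((β * b₁ : 𝓞 K₁) : K₁) - 1 = ((β * b₁ - 1 : 𝓞 K₁) : K₁) := rfl
        rw [h3]
        exact (Q.valuation_lt_one_iff_mem (K := K₁) _).2 h1
      have h4 := val_eq_one_of_sub Q h2
      have h5 : ordv Q ((β * b₁ : 𝓞 K₁) : K₁) = 0 := by
        unfold ordv
        rw [h4, WithZero.log_one, neg_zero]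
      rw [h5]; exact dvd_zero _
    · exact absurd h hQF


section stage1

variable {K K₁ M₁ : Type} [Field K] [NumberField K] [Field K₁] [NumberField K₁]
  [Field M₁] [NumberField M₁] [Algebra K K₁] [Algebra K₁ M₁] [IsGalois K K₁]

theorem finite_above (RK : Set (HeightOneSpectrum (𝓞 K))) (hRK : RK.Finite) :
    {Q : HeightOneSpectrum (𝓞 K₁) | bel K Q ∈ RK}.Finite := by
  refine (hRK.biUnion fun q _ => finite_bel (M := K₁) q).subset ?_
  intro Q hQ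
  simp only [Set.mem_iUnion]
  exact ⟨bel K Q, hQ, rfl⟩

omit [IsGalois K K₁] in
theorem natCast_bel (n : ℕ) (Q : HeightOneSpectrum (𝓞 K₁)) :
    (n : 𝓞 K₁) ∈ Q.asIdeal ↔ (n : 𝓞 K) ∈ (bel K Q).asIdeal := by
  constructor
  · intro h
    show algebraMap (𝓞 K) (𝓞 K₁) (n : 𝓞 K) ∈ Q.asIdeal
    rwa [map_natCast]
  · intro h
    have h1 : algebraMap (𝓞 K) (𝓞 K₁) (n : 𝓞 K) ∈ Q.asIdeal := h
    rwa [map_natCast] at h1

/-- The local approximation `t` of `c` of valuation one. -/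
theorem exists_target (Q : HeightOneSpectrum (𝓞 K₁)) (c : K₁)
    (hc : ordv Q c = 1) : ∃ t : 𝓞 K₁, ∀ b : 𝓞 K₁, b - t ∈ Q.asIdeal ^ 2 →
      Q.valuation K₁ ((b : K₁) / c - 1) < 1 := by
  have hc0 : c ≠ 0 := by
    intro h0
    unfold ordv at hc
    rw [h0, map_zero, WithZero.log_zero] at hc
    norm_num at hc
  have hv0 : Q.valuation K₁ c ≠ 0 := (Valuation.ne_zero_iff (Q.valuation K₁)).2 hc0
  have hvc : Q.valuation K₁ c = WithZero.exp (-1 : ℤ) := by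
    unfold ordv at hc
    rw [← WithZero.exp_log hv0]
    congr 1
    linarith
  have hle : Q.valuation K₁ c ≤ 1 := by
    rw [hvc, ← WithZero.exp_zero, WithZero.exp_le_exp]
    norm_num
  obtain ⟨t, ht⟩ := Q.exists_valuation_sub_lt_of_integer (K := K₁) hle
    (Units.mk0 (WithZero.exp (-1 : ℤ)) WithZero.exp_ne_zero)
  refine ⟨t, fun b hb => ?_⟩
  have h1 : Q.valuation K₁ ((b : K₁) - t) < WithZero.exp (-1 : ℤ) := by
    have h2 := val_le_of_mem_sq Q _ hb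
    have h3 : ((b - t : 𝓞 K₁) : K₁) = (b : K₁) - t := rfl
    rw [h3] at h2
    refine lt_of_le_of_lt h2 ?_
    rw [WithZero.exp_lt_exp]; norm_num
  have h4 : Q.valuation K₁ ((t : K₁) - c) < WithZero.exp (-1 : ℤ) := ht
  have h5 : Q.valuation K₁ ((b : K₁) - c) < WithZero.exp (-1 : ℤ) := by
    have h6 : (b : K₁) - c = ((b : K₁) - t) + ((t : K₁) - c) := by ring
    rw [h6]
    exact Valuation.map_add_lt _ h1 h4
  have h7 : (b : K₁) / c - 1 = ((b : K₁) - c) / c := by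
    rw [sub_div, div_self hc0]
  rw [h7, map_div₀, hvc]
  exact (div_lt_one₀ (zero_lt_iff.2 WithZero.exp_ne_zero)).2 h5

theorem stage1 [IsTotallyComplex K₁] [IsGalois K₁ M₁] (hBEX : E_BEX) (hNFI : E_NFI)
    (p : ℕ) [Fact p.Prime] (hnt : 1 < finrank K₁ M₁) (h3 : p = 2 → 3 ≤ finrank K₁ M₁)
    (RK : Set (HeightOneSpectrum (𝓞 K))) (hRK : RK.Finite)
    (hpR : ∀ q ∈ RK, (p : 𝓞 K) ∉ q.asIdeal)
    (cq : HeightOneSpectrum (𝓞 K) → K₁)
    (hcq : ∀ Q : HeightOneSpectrum (𝓞 K₁), bel K Q ∈ RK → ordv Q (cq (bel K Q)) = 1)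
    (Z : Set (HeightOneSpectrum (𝓞 M₁))) (hZ : Z.Finite)
    (Qf : HeightOneSpectrum (𝓞 K) → HeightOneSpectrum (𝓞 K₁)) :
    ∃ (Q₀ : HeightOneSpectrum (𝓞 K₁)) (W₀ : HeightOneSpectrum (𝓞 M₁)) (b : 𝓞 K₁),
      bel K Q₀ ∉ RK ∧ FreeP K Q₀ ∧ Above W₀ Q₀ ∧ ¬ FreeP K₁ W₀ ∧ W₀ ∉ Z ∧ b ≠ 0 ∧
      (p : 𝓞 K₁) ^ 3 ∣ b - 1 ∧
      (∀ Q : HeightOneSpectrum (𝓞 K₁), bel K Q ∈ RK → Q ≠ Qf (bel K Q) →
        Q.valuation K₁ ((b : K₁) - 1) < 1) ∧
      (∀ Q : HeightOneSpectrum (𝓞 K₁), bel K Q ∈ RK → Q = Qf (bel K Q) →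
        Q.valuation K₁ ((b : K₁) / cq (bel K Q) - 1) < 1) ∧
      (∀ Q : HeightOneSpectrum (𝓞 K₁), bel K Q = bel K Q₀ → Q ≠ Q₀ →
        Q.valuation K₁ ((b : K₁) - 1) < 1) ∧
      ordv Q₀ (b : K₁) = 1 ∧
      ∀ (W : HeightOneSpectrum (𝓞 M₁)) (Q : HeightOneSpectrum (𝓞 K₁)), Above W Q → FreeP K₁ W →
        bel K Q ∉ RK → bel K Q ≠ bel K Q₀ → (p : ℤ) ∣ ordv Q (b : K₁) := by
  classical
  have hp' : p.Prime := Fact.out
  have hpK₁ : (p : 𝓞 K₁) ≠ 0 := Nat.cast_ne_zero.2 hp'.ne_zero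
  have hZ' : ({Q : HeightOneSpectrum (𝓞 K₁) | bel K Q ∈ RK} ∪
      {Q : HeightOneSpectrum (𝓞 K₁) | (p : 𝓞 K₁) ∈ Q.asIdeal} ∪ (bel K₁ '' Z)).Finite :=
    ((finite_above RK hRK).union (finite_dvd _ hpK₁)).union (hZ.image _)
  obtain ⟨Q₀, hQ₀Z, hQ₀free, W₀, hW₀, hW₀free⟩ := hNFI K K₁ M₁ hnt _ hZ'
  have hQ₀R : bel K Q₀ ∉ RK := fun h => hQ₀Z (Or.inl (Or.inl h))
  have hQ₀p : (p : 𝓞 K₁) ∉ Q₀.asIdeal := fun h => hQ₀Z (Or.inl (Or.inr h))
  have hW₀Z : W₀ ∉ Z := fun h => hQ₀Z (Or.inr ⟨W₀, h, bel_of_above hW₀⟩)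
  have hFfin : {Q : HeightOneSpectrum (𝓞 K₁) | bel K Q ∈ RK ∨ bel K Q = bel K Q₀}.Finite :=
    (finite_above RK hRK).union (finite_bel (M := K₁) (bel K Q₀))
  obtain ⟨Fs, hFs⟩ : ∃ Fs : Finset (HeightOneSpectrum (𝓞 K₁)), ∀ Q, Q ∈ Fs ↔
      (bel K Q ∈ RK ∨ bel K Q = bel K Q₀) :=
    ⟨hFfin.toFinset, fun Q => by rw [Set.Finite.mem_toFinset]; rfl⟩
  have hpF : ∀ Q ∈ Fs, (p : 𝓞 K₁) ∉ Q.asIdeal := by
    intro Q hQ
    rw [natCast_bel (K := K)]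
    rcases (hFs Q).1 hQ with h | h
    · exact hpR _ h
    · rw [h, ← natCast_bel (K := K)]; exact hQ₀p
  obtain ⟨ϖ, hϖ⟩ := Q₀.intValuation_exists_uniformizer
  have htα : ∀ Q : HeightOneSpectrum (𝓞 K₁), ∃ t : 𝓞 K₁, bel K Q ∈ RK → ∀ b : 𝓞 K₁,
      b - t ∈ Q.asIdeal ^ 2 → Q.valuation K₁ ((b : K₁) / cq (bel K Q) - 1) < 1 := by
    intro Q
    by_cases h : bel K Q ∈ RK
    · obtain ⟨t, ht⟩ := exists_target Q _ (hcq Q h)
      exact ⟨t, fun _ => ht⟩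
    · exact ⟨0, fun h' => absurd h' h⟩
  choose tα htα using htα
  obtain ⟨b, hb0, hb3, hbt, hbord⟩ := exists_b hBEX p K₁ M₁ hnt h3 Fs hpF
    (fun Q => if Q = Q₀ then ϖ else if Q = Qf (bel K Q) ∧ bel K Q ∈ RK then tα Q else 1)
    Q₀ ((hFs Q₀).2 (Or.inr rfl)) (by rw [if_pos rfl]; exact hϖ)
  have hne : ∀ Q : HeightOneSpectrum (𝓞 K₁), bel K Q ∈ RK → Q ≠ Q₀ := by
    intro Q h h1
    rw [h1] at h
    exact hQ₀R h
  have hone : ∀ Q : HeightOneSpectrum (𝓞 K₁), b - 1 ∈ Q.asIdeal ^ 2 →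
      Q.valuation K₁ ((b : K₁) - 1) < 1 := by
    intro Q h
    have h3 : ((b : K₁) - 1) = ((b - 1 : 𝓞 K₁) : K₁) := rfl
    rw [h3]
    exact (Q.valuation_lt_one_iff_mem (K := K₁) _).2 (Ideal.pow_le_self two_ne_zero h)
  refine ⟨Q₀, W₀, b, hQ₀R, hQ₀free, hW₀, hW₀free, hW₀Z, hb0, hb3, ?_, ?_, ?_, ?_, ?_⟩
  · intro Q hQ hQf
    refine hone Q ?_
    have h := hbt Q ((hFs Q).2 (Or.inl hQ))
    rwa [if_neg (hne Q hQ), if_neg (fun h => hQf h.1)] at h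
  · intro Q hQ hQf
    have h := hbt Q ((hFs Q).2 (Or.inl hQ))
    rw [if_neg (hne Q hQ), if_pos ⟨hQf, hQ⟩] at h
    exact htα Q hQ b h
  · intro Q hQ hQQ₀
    refine hone Q ?_
    have h := hbt Q ((hFs Q).2 (Or.inr hQ))
    rwa [if_neg hQQ₀, if_neg (fun h => hQ₀R (by rw [← hQ]; exact h.2))] at h
  · have h := hbt Q₀ ((hFs Q₀).2 (Or.inr rfl))
    rw [if_pos rfl] at h
    have h1 := val_of_sub_mem_sq Q₀ b ϖ hϖ h
    unfold ordv
    rw [h1, WithZero.log_exp]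
    norm_num
  · intro W Q hWQ hfr h1 h2
    refine hbord W Q hWQ hfr fun h => ?_
    rcases (hFs Q).1 h with h | h
    · exact h1 h
    · exact h2 h

end stage1


theorem ordv_eq_of_div {F : Type} [Field F] [NumberField F] (Q : HeightOneSpectrum (𝓞 F))
    {a c : F} (hc : c ≠ 0) (h : Q.valuation F (a / c - 1) < 1) : ordv Q a = ordv Q c := by
  have h1 := val_eq_one_of_sub Q h
  rw [map_div₀, div_eq_one_iff_eq ((Valuation.ne_zero_iff (Q.valuation F)).2 hc)] at h1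
  unfold ordv
  rw [h1]

theorem sg_sq {F : Type} [Field F] (n : ℕ) : ((-1 : F) ^ n) * (-1) ^ n = 1 := by
  rw [← pow_add, ← two_mul, pow_mul]; norm_num

theorem ordv_sg {F : Type} [Field F] [NumberField F] (Q : HeightOneSpectrum (𝓞 F)) (n : ℕ)
    (x : F) : ordv Q ((-1) ^ n * x) = ordv Q x := by
  unfold ordv
  rw [map_mul, map_pow, Valuation.map_neg, map_one, one_pow, one_mul]

/-- **E_EXA.** -/
theorem e_exa (hTOW : E_TOW) (hTRF : E_TRF) (hBEX : E_BEX) (hNFI : E_NFI) (hOMG : E_OMG)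
    (hSHF : E_SHF) : E_EXA := by
  classical
  intro p hp K M K₁ M₁ _ _ _ _ _ _ _ _ _ _ _ _ _ _ _ _ _ _ _ ε hT R al hR Z hZ
  have hp' : p.Prime := hp.out
  obtain ⟨hG1, hG2, hc1, hc2, h3, hfree⟩ := hTOW p K M K₁ M₁ ε hT
  have hK₁ : IsTotallyComplex K₁ := totallyComplex_of (K := K)
  have hRKfin : (bel K '' R).Finite := hR.fin.image _
  obtain ⟨alq, halq⟩ : ∃ alq : HeightOneSpectrum (𝓞 K) → K, ∀ w ∈ R, alq (bel K w) = al w := by
    refine ⟨fun q => if h : ∃ w ∈ R, bel K w = q then al h.choose else 0, fun w hw => ?_⟩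
    have h : ∃ w' ∈ R, bel K w' = bel K w := ⟨w, hw, rfl⟩
    show (if h : ∃ w' ∈ R, bel K w' = bel K w then al h.choose else 0) = al w
    rw [dif_pos h]
    exact hR.const w hw _ (conj_of_bel' h.choose_spec.2)
  choose Qf hQf using fun q : HeightOneSpectrum (𝓞 K) => exists_bel (M₁ := K₁) q
  have hpw : ∀ q ∈ bel K '' R, (p : 𝓞 K) ∉ q.asIdeal := by
    rintro q ⟨w, hw, rfl⟩ h
    have h1 : (p : 𝓞 M) ∈ w.asIdeal := (natCast_bel (K := K) p w).2 h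
    exact absurd (hR.copr w hw) ((natCast_mem_iff w p).1 h1).ne
  have hvp : ∀ Q : HeightOneSpectrum (𝓞 K₁), bel K Q ∈ bel K '' R →
      Q.valuation K₁ (p : K₁) = 1 := by
    intro Q hQ
    rw [← natCast_notMem_iff, natCast_bel (K := K)]
    exact hpw _ hQ
  have hQfree : ∀ Q : HeightOneSpectrum (𝓞 K₁), bel K Q ∈ bel K '' R → FreeP K Q := by
    rintro Q hQ
    obtain ⟨w, hw, hwQ⟩ := id hQ
    refine free_of_norm hT.prim hT.gen Q (hvp Q hQ) ?_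
    rw [← hwQ, ← absNorm_free w (hR.free w hw)]
    exact hR.norm w hw
  have hQal : ∀ Q : HeightOneSpectrum (𝓞 K₁), bel K Q ∈ bel K '' R →
      ordv Q (algebraMap K K₁ (alq (bel K Q))) = 1 := by
    rintro Q hQ
    obtain ⟨w, hw, hwQ⟩ := id hQ
    have h1 := hR.unif w hw
    rw [ordW (M := K) w, ram_free w (hR.free w hw), Nat.cast_one, one_mul] at h1
    rw [ordW (M := K) Q, ram_free Q (hQfree Q hQ), Nat.cast_one, one_mul, ← hwQ, halq w hw]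
    exact h1
  obtain ⟨Q₀, W₀, b, hQ₀R, hQ₀free, hW₀, hW₀free, hW₀Z, hb0, hb3, hV1, hV3, hV1', hV2, hbord⟩ :=
    stage1 hBEX hNFI p hT.nt h3 (bel K '' R) hRKfin hpw
      (fun q => (-1) ^ (p - 1) * algebraMap K K₁ (alq q))
      (fun Q hQ => by rw [ordv_sg]; exact hQal Q hQ) Z hZ Qf
  obtain ⟨a, ha0, haO, ha3, haord, hasub⟩ := hOMG p K K₁ ε hT.prim b hb0
  have hb0' : (b : K₁) ≠ 0 := fun h => hb0 (RingOfIntegers.ext h)
  have ha0' : (a : K₁) ≠ 0 := fun h => ha0 (RingOfIntegers.ext h)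
  have h1p : ¬ (p : ℤ) ∣ 1 := by
    intro h
    have h2 := Int.eq_one_of_dvd_one (by positivity) h
    exact hp'.one_lt.ne' (by exact_mod_cast h2)
  refine ⟨a, ha0, ha3 hb3, haO, ⟨?_, ?_⟩, W₀, hW₀Z, ?_⟩
  · intro W w hWw hwfree hwR
    rw [(hTRF p K₁ M₁ hc2 W (bel K₁ W) rfl).1 (a : K₁)]
    refine haord _ fun Q' hQ' => ?_
    obtain ⟨W', hW'⟩ := exists_bel (M₁ := M₁) Q'
    have e1 : bel K Q' = bel K w := by
      rw [bel_eq_of_conj hQ', bel_bel W, ← bel_bel (M := M) W, bel_of_above hWw]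
    have e2 : bel K (bel M W') = bel K Q' := by
      rw [bel_bel W', ← bel_bel (M := K₁) W', hW']
    have hcj : ConjP K (bel M W') w := conj_of_bel' (e2.trans e1)
    have hcj' : ConjP K w (bel M W') := conj_of_bel' (e2.trans e1).symm
    have hfr : FreeP K (bel M W') := free_of_conj hcj hwfree
    have hwR' : bel M W' ∉ R := fun h => hwR (hR.stable _ h _ hcj')
    refine hbord W' Q' ?_ (hfree W' (bel M W') rfl hfr) ?_ ?_
    · rw [← hW']; exact above_bel W'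
    · rintro ⟨w'', hw'', h⟩
      apply hwR'
      exact hR.stable w'' hw'' _ (conj_of_bel' (e2.trans h.symm))
    · intro h
      apply hW₀free
      refine hfree W₀ (bel M W₀) rfl ?_
      refine free_of_conj (conj_of_bel' ?_) hfr
      rw [e2, h, bel_bel W₀, ← bel_bel (M := K₁) W₀, bel_of_above hW₀]
  · intro w hw
    obtain ⟨W, hW⟩ := exists_bel (M₁ := M₁) w
    have hqR : bel K w ∈ bel K '' R := ⟨w, hw, rfl⟩
    have hQR : bel K (Qf (bel K w)) ∈ bel K '' R := by rw [hQf]; exact hqR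
    have e1 : bel K (bel K₁ W) = bel K w := by
      rw [bel_bel W, ← bel_bel (M := M) W, hW]
    have hcj : ConjP K (bel K₁ W) (Qf (bel K w)) := conj_of_bel' (by rw [e1, hQf])
    have hab := hasub (Qf (bel K w)) (hQfree _ hQR) (fun Q' hQ' hne => by
      have h1 : bel K Q' = bel K w := by rw [bel_eq_of_conj hQ', hQf]
      refine hV1 Q' (by rw [h1]; exact hqR) ?_
      rw [h1]; exact hne)
    have hbc := hV3 (Qf (bel K w)) hQR (by rw [hQf])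
    simp only [hQf, halq w hw] at hbc
    have hal1 : ordv (Qf (bel K w)) (algebraMap K K₁ (al w)) = 1 := by
      have h := hQal _ hQR
      rwa [hQf, halq w hw] at h
    have hal0 : algebraMap K K₁ (al w) ≠ 0 := by
      intro h0
      unfold ordv at hal1
      rw [h0, map_zero, WithZero.log_zero] at hal1
      norm_num at hal1
    have hac := val_mul_sub _ hab hbc
    have hsg0 : ((-1 : K₁) ^ (p - 1)) ≠ 0 := left_ne_zero_of_mul_eq_one (sg_sq (F := K₁) (p - 1))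
    have e2 : (a : K₁) / b * (b / ((-1) ^ (p - 1) * algebraMap K K₁ (al w))) =
        a / ((-1) ^ (p - 1) * algebraMap K K₁ (al w)) := by
      field_simp
    rw [e2] at hac
    have hord : ordv (Qf (bel K w)) (a : K₁) = 1 := by
      rw [ordv_eq_of_div _ (mul_ne_zero hsg0 hal0) hac, ordv_sg, hal1]
    have hloc : LocPow p (Qf (bel K w))
        ((-1) ^ (p - 1) * (a : K₁) * (algebraMap K K₁ (al w)) ^ (p - 1)) := by
      refine ⟨(algebraMap K K₁ (al w))⁻¹, ?_⟩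
      have e3 : (-1) ^ (p - 1) * (a : K₁) * (algebraMap K K₁ (al w)) ^ (p - 1) *
          (algebraMap K K₁ (al w))⁻¹ ^ p = a / ((-1) ^ (p - 1) * algebraMap K K₁ (al w)) := by
        have e4 : (algebraMap K K₁ (al w)) ^ (p - 1) * (algebraMap K K₁ (al w))⁻¹ ^ p =
            (algebraMap K K₁ (al w))⁻¹ := by
          conv_lhs => rw [← Nat.sub_add_cancel hp'.one_le, pow_succ, Nat.add_sub_cancel,
            inv_pow, ← mul_assoc, mul_inv_cancel₀ (pow_ne_zero _ hal0), one_mul]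
        rw [mul_assoc, e4, div_eq_mul_inv, mul_inv]
        have e5 : ((-1 : K₁) ^ (p - 1))⁻¹ = (-1) ^ (p - 1) :=
          inv_eq_of_mul_eq_one_right (sg_sq (F := K₁) (p - 1))
        rw [e5]; ring
      rw [e3]; exact hac
    obtain ⟨hn, j, hj⟩ := hSHF p K K₁ ε hT.prim a ha0' haO (Qf (bel K w)) (bel K₁ W) hcj
      (by rw [hord]; exact h1p) (al w) ⟨p - 1, hloc⟩
    have hTR := hTRF p K₁ M₁ hc2 W (bel K₁ W) rfl
    refine ⟨W, ?_, ?_, j, ?_⟩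
    · rw [← hW]; exact above_bel W
    · rw [hTR.1]; exact hn
    · have h := (hTR.2 _).2 hj
      rw [map_mul, map_mul, map_pow, map_pow, map_neg, map_one] at h
      rwa [← IsScalarTower.algebraMap_apply, ← IsScalarTower.algebraMap_apply] at h ⊢
  · rw [(hTRF p K₁ M₁ hc2 W₀ Q₀ hW₀).1 (a : K₁)]
    have h := hasub Q₀ hQ₀free (fun Q' hQ' hne => hV1' Q' (bel_eq_of_conj hQ') hne)
    rw [ordv_eq_of_div _ hb0' h, hV2]
    exact h1p

end Pool.Agent.Helper42.RD
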