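import Pool.Agent.Helper51.RP.Defs

/-!
# Project RD (MP_fc6b1e_nt): definitions for the decoupled form, all primes `p`

`M/K` is a cyclic extension of degree `m` prime to `p`. A datum `(R, α)` is a finite set `R` of primes
of `M` with trivial decomposition group over `K`, prime to `p`, of norm `≡ 1 mod p`, stable under
`Gal(M/K)`, together with a uniformizer `α w ∈ K` for each `w ∈ R`, the same for conjugate primes.
-/

namespace Pool.Agent.Helper42.RD

open NumberField Polynomial Module IsDedekindDomain Pool.Agent.Helper51.SigLeo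
open Pool.Agent.Helper51.RP

section datum

variable {K M : Type} [Field K] [Field M] [NumberField M] [Algebra K M]

/-- The datum `(R, α)`. -/
structure IsDat (p : ℕ) (R : Set (HeightOneSpectrum (𝓞 M))) (al : HeightOneSpectrum (𝓞 M) → K) :
    Prop where
  fin : R.Finite
  stable : ∀ w ∈ R, ∀ w', ConjP K w' w → w' ∈ R
  free : ∀ w ∈ R, FreeP K w
  copr : ∀ w ∈ R, w.valuation M (p : M) = 1
  norm : ∀ w ∈ R, p ∣ Ideal.absNorm w.asIdeal - 1
  unif : ∀ w ∈ R, ordv w (algebraMap K M (al w)) = 1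
  const : ∀ w ∈ R, ∀ w', ConjP K w' w → al w' = al w

/-- The local condition of the datum at the prime `w`: `p ∣ ord_w(x)` if `w ∉ R`; if `w ∈ R`, the
product of `x` and a power of `α w` is a `p`-th power in the completion at `w` (that is `x` is a norm
from the totally ramified extension generated by a `p`-th root of `(-1)^(p-1) α w`). -/
def LocD (p : ℕ) (R : Set (HeightOneSpectrum (𝓞 M))) (al : HeightOneSpectrum (𝓞 M) → K)
    (w : HeightOneSpectrum (𝓞 M)) (x : M) : Prop :=
  (w ∉ R → (p : ℤ) ∣ ordv w x) ∧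
    (w ∈ R → ∃ i : ℕ, LocPow p w (x * (algebraMap K M (al w)) ^ i))

/-- The Selmer group of the datum. -/
structure SelD {p : ℕ} {k : Type} [NormedField k] (L : IwasawaLog p k) (T : Set (M →+* k))
    (P : (ZMod p)[X]) (δ : M ≃ₐ[K] M) (R : Set (HeightOneSpectrum (𝓞 M)))
    (al : HeightOneSpectrum (𝓞 M) → K) (x : Mˣ) : Prop where
  pol : Pw p (pol P δ x)
  loc : ∀ w : HeightOneSpectrum (𝓞 M), LocD p R al w (x : M)
  sig : LocSig L T x

/-- The element `a` of `M₁ ⊇ M` matches the datum: its valuation is a multiple of `p` at all the primes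
above primes of `M` with trivial decomposition group over `K`, not in `R`; and for each `w ∈ R` there is
a prime `W` above `w` at which the valuation of `a` is prime to `p` and at which
`N(a^(1/p)) = (-1)^(p-1) a` is the product of a power of `α w` and a `p`-th power in the
completion. -/
structure Match (p : ℕ) {M₁ : Type} [Field M₁] [NumberField M₁] [Algebra M M₁]
    (R : Set (HeightOneSpectrum (𝓞 M))) (al : HeightOneSpectrum (𝓞 M) → K) (a : M₁) : Prop where
  free : ∀ (W : HeightOneSpectrum (𝓞 M₁)) (w : HeightOneSpectrum (𝓞 M)), Above W w →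
    FreeP K w → w ∉ R → (p : ℤ) ∣ ordv W a
  ram : ∀ w ∈ R, ∃ W : HeightOneSpectrum (𝓞 M₁), Above W w ∧ ¬ (p : ℤ) ∣ ordv W a ∧
    ∃ j : ℕ, LocPow p W ((-1) ^ (p - 1) * a * (algebraMap M M₁ (algebraMap K M (al w))) ^ j)

end datum

/-- The fields `K ⊆ M, K₁ ⊆ M₁`: `K₁ = K(ε)` with a primitive `p`-th root of unity `ε`, `M₁ = M K₁`,
`[M : K]` is prime to `p`, `M` is not contained in `K₁`. -/
structure Tower (p : ℕ) (K M K₁ M₁ : Type) [Field K] [Field M] [Field K₁] [Field M₁]
    [Algebra K M] [Algebra K K₁] [Algebra K M₁] [Algebra M M₁] [Algebra K₁ M₁] (ε : K₁) :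
    Prop where
  prim : IsPrimitiveRoot ε p
  gen : ∀ σ : K₁ ≃ₐ[K] K₁, σ ε = ε → σ = 1
  cop : (finrank K M).Coprime p
  lin : ∀ g : M₁ ≃ₐ[K] M₁, (∀ x : M, g (algebraMap M M₁ x) = algebraMap M M₁ x) →
    (∀ x : K₁, g (algebraMap K₁ M₁ x) = algebraMap K₁ M₁ x) → g = 1
  nt : 1 < finrank K₁ M₁

/-- The `Σ`-Leopoldt statement for the characters `χ = χ₀ φ`, `φ` a faithful character of the cyclic
extension `N/K` of degree `p`: `H = MN`, `χ` is any injective character of `Gal(H/K)` such that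
`χ(h)^p = χ₀(g)^p` if `h` extends `g ∈ Gal(M/K)`, and `L` is Iwasawa's logarithm. -/
def TwistGood (p : ℕ) {K Ω k : Type} [Field K] [Field Ω] [Algebra K Ω] [NormedField k]
    (ιinf : Ω →+* ℂ) (ιp : Ω →+* k) (L : IwasawaLog p k) (S : Set (K →+* ℂ))
    (M : IntermediateField K Ω) (χ₀ : (M ≃ₐ[K] M) →* kˣ) (N : IntermediateField K Ω) : Prop :=
  ∀ H : IntermediateField K Ω, H = M ⊔ N → ∀ (χ : (H ≃ₐ[K] H) →* kˣ), Function.Injective χ →
    (∀ (h : H ≃ₐ[K] H) (g : M ≃ₐ[K] M),
      (∀ (x : M) (y : H), (y : Ω) = (x : Ω) → ((h y : H) : Ω) = ((g x : M) : Ω)) →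
      χ h ^ p = χ₀ g ^ p) →
    InjectiveOn (finrank K H) χ unitsHom (logSigma ιinf ιp S L)

/-- The set `Σ_p` of embeddings `K → k`: those of the form `ι_p ∘ σ` with `ι_∞ ∘ σ ∈ S`. -/
def TSet {K Ω k : Type} [Field K] [Field Ω] [NormedField k] (ιinf : Ω →+* ℂ) (ιp : Ω →+* k)
    (S : Set (K →+* ℂ)) : Set (K →+* k) :=
  {τ | ∃ σ : K →+* Ω, ιinf.comp σ ∈ S ∧ τ = ιp.comp σ}

end Pool.Agent.Helper42.RD
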