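import Pool.Agent.Helper42.RD.Defs
import Pool.Agent.Helper51.RP.Goals2
import Pool.Agent.Helper38.RSP.Goals3

/-!
# Project RD (MP_fc6b1e_nt), part D: a datum with trivial Selmer group exists

Every statement is a `def ... : Prop` with its complete proof in the docstring. `RP.S_X` are the
statements of Helper51, `RSP.SP_X` those of Helper38.
-/

namespace Pool.Agent.Helper42.RD

open NumberField Polynomial Module IsDedekindDomain TensorProduct Pool.Agent.Helper51.SigLeo
open Pool.Agent.Helper51.RP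

/-- **D_VAL** (a datum gives a local system). Let `(R, α)` be a datum and `S ⊇ R` a finite set of primes
of `M`, stable under `Gal(M/K)`, which contains the primes above `p`. There is a local system `v` at
`S` such that `v x w = 0` iff the local condition of the datum holds for `x` at `w`.

PROOF. *Tame symbols.* Let `w ∈ R`, `α = α w`, and `G_w = {x ∈ Mˣ : LocPow p w (x α^i) for some i}`.
`G_w` is a subgroup (multiply the `y`s; `LocPow p w z` implies `LocPow p w (z⁻¹)` with `y⁻¹`, and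
`x⁻¹ α^(-i) = x⁻¹ α^((p-1) i) · (α^(-i))^p`; `LocPow p w (z c^p)` iff `LocPow p w z`), it contains `α`, the
`p`-th powers and the `x` with `w(x - 1) > 0` (take `y = 1`). CLAIM: `Mˣ/G_w` is cyclic of
order `p`. As `ord_w(α) = 1` (`α ∈ K` regarded in `M`), every `x` is congruent modulo `G_w` to
`x α^(-ord_w x)`, of valuation 0; so `Mˣ/G_w` is a quotient of `κˣ`, `κ = 𝓞_M/w` (elements of valuation
0 are quotients of elements of `𝓞_M ∖ w`, or congruent to such elements; two elements of `𝓞_M ∖ w`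
congruent modulo `w` have quotient in `G_w`), and the class of `c ∈ κˣ` is trivial iff `c` is a `p`-th
power in `κˣ`: if `LocPow p w (c α^i)`, `c α^i y^p ≡ 1`, the valuation gives `i = -p ord_w(y)`, so
`α^i y^p = z^p` with the element `z = α^(-ord_w(y)) y` of valuation 0, and `c z^p ≡ 1 mod w`. `κˣ` is cyclic of order `N(w) - 1`, divisible by `p` (`norm`; and
`N(w) ≥ 2`), so `κˣ/p`-th powers is cyclic of order `p`. Choose an isomorphism of `Mˣ/G_w` with `ZMod p`:
it gives an additive surjective map `θ_w : Mˣ → ZMod p` with kernel `G_w`.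

*Equivariance.* Choose one prime `w₀` in each `Gal(M/K)`-orbit of `R` (`ConjP K` is an equivalence
relation). For `w ∈ R` conjugate to `w₀` there is exactly one `g ∈ Gal(M/K)` with
`w.valuation (g y) = w₀.valuation y` for all `y` (if `g, g'` are two such, `g⁻¹ g'` preserves the
valuation of `w₀`, and `free`). Put `v x w = θ_{w₀}(g⁻¹ x)`. It is additive, with kernel
`{x : g⁻¹ x ∈ G_{w₀}} = G_w` (apply `g` to the relation; `g α = α` because `α ∈ K`, and
`α w₀ = α w` by `const`). If `w'.valuation y = w.valuation (δ y)` then `w'` is conjugate to `w₀` by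
`δ⁻¹ g` (`w'.valuation (δ⁻¹ g y) = w.valuation (g y)`), so
`v x w' = θ_{w₀}(g⁻¹ δ x) = v (δ x) w`: this is `equiv`. For `w ∈ S ∖ R` put `v x w = ord_w(x) mod p`;
`equiv` is clear (`w ∈ R ↔ w' ∈ R` as `R` is stable).

*surj.* Let `c` be given. By the Chinese remainder theorem choose `x ∈ 𝓞_M`, `x ≠ 0`, with: for
`w ∈ S ∖ R`, `ord_w(x) = (c w).val` (take `x ≡ π^n mod w^(n+1)`, `π ∈ w ∖ w²`); for `w ∈ R`, `x ≡ u_w mod w`
with `u_w ∈ 𝓞_M ∖ w`, `v u_w w = c w` (exists, because `v(·, w)` is surjective, trivial on `α w`, and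
on the elements congruent to 1); then `v x w = v u_w w`.

*approx.* Let `‖τ x‖ = 1` for `τ ∈ above T`; `𝔓_τ = {b ∈ 𝓞_M : ‖τ b‖ < 1}` is a prime of `S` (it contains
`p`), not in `R` (`copr`). Write `x = a/b` with `a, b ∈ 𝓞_M` not in the `𝔓_τ` (`x` is a unit at these
finitely many primes; choose `b` by the Chinese remainder theorem applied to the denominator ideal, or
use the localisation). Let `n` be such that `b ∈ 𝔓_τ^n` implies `‖τ b‖ ≤ p^(-3)` (`n = 3 e` with
`e = ord(p)`: `𝔓_τ^n` and `p³` generate the same ideal locally). Choose `x' ∈ 𝓞_M` with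
`b x' ≡ a mod 𝔓_τ^n` for all `τ` and `x' ≡ 1 mod w` for the other `w ∈ S`. Then
`‖τ(x'/x) - 1‖ = ‖τ(b x' - a)‖ ≤ p^(-3)`, and `v x' w = 0` for all `w ∈ S`.

*𝔪₀* is the product of the primes of `S`: `α ≡ 1 mod 𝔪₀` implies `v α w = 0` for `w ∈ S`. -/
def D_VAL : Prop :=
  ∀ (p : ℕ) [Fact p.Prime] (k : Type) [NormedField k] [NormedAlgebra ℚ_[p] k]
    [IsUltrametricDist k] (K M : Type) [Field K] [NumberField K] [Field M] [NumberField M]
    [Algebra K M] (δ : M ≃ₐ[K] M) (T : Set (K →+* k)) (R : Set (HeightOneSpectrum (𝓞 M)))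
    (al : HeightOneSpectrum (𝓞 M) → K), IsDat p R al →
  ∀ S : Set (HeightOneSpectrum (𝓞 M)), S.Finite → (∀ w ∈ S, ∀ w', ConjP K w' w → w' ∈ S) →
    (∀ w : HeightOneSpectrum (𝓞 M), w.valuation M (p : M) < 1 → w ∈ S) → R ⊆ S →
  ∃ (𝔪₀ : Ideal (𝓞 M)) (v : Mˣ → HeightOneSpectrum (𝓞 M) → ZMod p), LSys δ T S 𝔪₀ v ∧
    ∀ (x : Mˣ), ∀ w ∈ S, (v x w = 0 ↔ LocD p R al w (x : M))

/-- **D_SLG.** `SelD` is a subgroup of `Mˣ` which contains the `p`-th powers and is stable under `δ`.

PROOF. `pol P δ` is a homomorphism which commutes with `δ` and preserves `p`-th powers. For `w ∈ R` the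
condition defines the subgroup `G_w` of `D_VAL`, for `w ∉ R` valuations are additive; `LocSig` is a
subgroup (see `RP.S_SUB`; for a subgroup containing the `p`-th powers: `x^p (x⁻¹)^p = 1`, `L 1 = 0`).
Stability: let `w` be a prime and `w'` the prime with `w'.valuation y = w.valuation (δ y)` (comap under
the automorphism `δ` of `𝓞_M`), conjugate to `w`, so `w ∈ R ↔ w' ∈ R` and `al w = al w'` if `w ∈ R`;
`LocD` for `(w', x)` gives `LocD` for `(w, δ x)` since `δ` fixes `al w`. `LocSig`: `τ ∈ above T` implies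
`τ ∘ δ ∈ above T`. -/
def D_SLG : Prop :=
  ∀ (p : ℕ) [Fact p.Prime] (k : Type) [NormedField k] [IsUltrametricDist k] (L : IwasawaLog p k)
    (K M : Type) [Field K] [NumberField K] [Field M] [NumberField M] [Algebra K M]
    (δ : M ≃ₐ[K] M) (P : (ZMod p)[X]) (T : Set (K →+* k)) (R : Set (HeightOneSpectrum (𝓞 M)))
    (al : HeightOneSpectrum (𝓞 M) → K), IsDat p R al →
  ∃ G : Subgroup Mˣ, (∀ x, x ∈ G ↔ SelD L (above T) P δ R al x) ∧
    (∀ x, Pw p x → x ∈ G) ∧
    ∀ x ∈ G, Units.map ((δ : M →+* M) : M →* M) x ∈ G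

/-- **D_FIN.** A set of elements of `Mˣ` whose valuations are multiples of `p` at all primes, pairwise
incongruent modulo `p`-th powers, has bounded cardinality.

PROOF. For such `x` the fractional ideal `(x)` is the `p`-th power of a fractional ideal `I_x`. If the
classes of `I_x` and `I_y` are equal then `I_x = z I_y`, so `x = u z^p y` with a unit `u`. So
the number of classes modulo `p`-th powers is at most (class number) times the order of
`𝓞_Mˣ/p`-th powers, which is finite since `𝓞_Mˣ` is finitely generated. -/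
def D_FIN : Prop :=
  ∀ (p : ℕ) [Fact p.Prime] (M : Type) [Field M] [NumberField M], ∃ n : ℕ, ∀ F : Finset Mˣ,
    (∀ x ∈ F, ∀ w : HeightOneSpectrum (𝓞 M), (p : ℤ) ∣ ordv w (x : M)) →
    (∀ x ∈ F, ∀ y ∈ F, x ≠ y → ¬ Pw p (x / y)) → F.card ≤ n

/-- **D_ORB** (adding an orbit to the datum). Let `𝔮 ∉ R` be a prime of `M` with trivial decomposition
group, prime to `p`, `p ∣ N(𝔮) - 1`. There is a datum `(R', α')`, `R' = R ∪ {conjugates of 𝔮}`, with
`α' = α` on `R`.

PROOF. Let `q = 𝔮 ∩ 𝓞_K`. The ramification index of `𝔮` over `q` is 1, because the order of the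
decomposition group of `𝔮` in `Gal(M/K)` is `e f` (`M/K` is Galois;
`Ideal.ncard_primesOver_mul_ramificationIdxIn_mul_inertiaDegIn`, and the orbit of `𝔮` has
`[M : K]` elements). So if `π ∈ K` has `ord_q(π) = 1` then `ord_𝔮(π) = 1`, and `ord_w(π) = 1` for all `w`
conjugate to `𝔮` (`g π = π`). Put `α' w = π` for these `w`. The other properties of `w` (trivial
decomposition group, norm, prime to `p`) follow from those of `𝔮` by conjugation: an automorphism `g`
of `M` induces an isomorphism `𝓞_M/𝔮 → 𝓞_M/g(𝔮)`. No conjugate of `𝔮` is in `R` (`R` is stable); the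
number of conjugates is finite. -/
def D_ORB : Prop :=
  ∀ (p : ℕ) [Fact p.Prime] (K M : Type) [Field K] [NumberField K] [Field M] [NumberField M]
    [Algebra K M] [IsGalois K M] (R : Set (HeightOneSpectrum (𝓞 M)))
    (al : HeightOneSpectrum (𝓞 M) → K), IsDat p R al →
  ∀ 𝔮 : HeightOneSpectrum (𝓞 M), 𝔮 ∉ R → FreeP K 𝔮 → 𝔮.valuation M (p : M) = 1 →
    p ∣ Ideal.absNorm 𝔮.asIdeal - 1 →
  ∃ al' : HeightOneSpectrum (𝓞 M) → K,
    IsDat p (R ∪ {w | ConjP K w 𝔮}) al' ∧ ∀ w ∈ R, al' w = al w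

/-- **D_DSC** (descent). If `SelD` contains an element which is not a `p`-th power, there is a datum
`(R', α')` with `SelD' ⊆ SelD` and `SelD' ≠ SelD`.

PROOF (from `RP.S_SEX`, `RP.S_DUAL`, `RP.S_STP`, `RSP.SP_QEX`, `D_VAL`, `D_SLG`, `D_ORB`). Let `x₀ ∈ SelD`
be not a `p`-th power. If `p = 2` then `x₀ δ(x₀)` is not a square: in the `F_2[X]`-module `Mˣ/squares` the
class of `x₀` is killed by `P`; if it were killed by `X + 1 = X - 1` it would be zero because `P` and
`X - 1` are coprime (`PhiData.cop`, `e = 1 < m`). Let `Z` be the union of `R` and of the primes above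
`p`, `S ⊇ Z` given by `RP.S_SEX`, `v` by `D_VAL`. `x₀` satisfies the hypothesis of `RP.S_DUAL` (for
`w ∈ S`, `v x₀ w = 0`; for `w ∉ S`, `w ∉ R` so `p ∣ ord_w(x₀)`): let `𝔪, ψ` be as stated there. By
`RSP.SP_QEX` (`M` is totally complex because `K` is) applied with `Z = S` there is `𝔮 ∉ S`, `FreeP K 𝔮`,
`ψ(𝔮) ≠ 0`, `p ∣ N(𝔮) - 1`, `𝔮 ∤ p`, and `x₁ = x₀` or `δ x₀`, in `SelD` by `D_SLG`, with
`¬ LocPow p 𝔮 x₁`. Let `(R', α')` be given by `D_ORB`; as `S` is stable, no conjugate of `𝔮` is in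
`S ⊇ R`.

`SelD' ⊆ SelD`: let `x ∈ SelD'`. For `w ∈ R` the conditions are the same (`α' = α` on `R`); for
`w ∉ R'` too. It remains to see that `p ∣ ord_w(x)` for the `w` conjugate to `𝔮`. All the elements
`x' = δ^i x` are in `SelD'` (`D_SLG`), and satisfy the hypotheses of the last statement of `RP.S_DUAL`:
for `w ∈ S`, `w` is not conjugate to `𝔮`, so `LocD p R al w x'` holds and `v x' w = 0`; for `w ∉ S` not
conjugate to `𝔮`, `w ∉ R'`, so `p ∣ ord_w(x')`. So the hypotheses of `RP.S_STP` hold (`cj δ 0 𝔮 = 𝔮`) and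
`p ∣ ord_𝔮(δ^i x)` for all `i`. If `w.valuation (g y) = 𝔮.valuation y`, `g⁻¹ = δ^i`, then
`ord_w(x) = ord_𝔮(δ^i x)` is a multiple of `p`.

`x₁ ∉ SelD'`: `p ∣ ord_𝔮(x₁)` since `x₁ ∈ SelD`, `𝔮 ∉ R`. If `LocPow p 𝔮 (x₁ (α' 𝔮)^i)` then
`p ∣ ord_𝔮(x₁) + i` (`z y^p ≡ 1` implies `ord(z) = -p ord(y)`), so `p ∣ i`, `(α' 𝔮)^i` is a `p`-th power
and `LocPow p 𝔮 x₁`, a contradiction. -/
def D_DSC : Prop :=
  ∀ (p : ℕ) [Fact p.Prime] (k : Type) [NormedField k] [NormedAlgebra ℚ_[p] k]
    [IsUltrametricDist k] [CompleteSpace k], Nonempty (AlgebraicClosure ℚ →+* k) →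
  ∀ (L : IwasawaLog p k) (K M : Type) [Field K] [NumberField K] [IsTotallyComplex K]
    [Field M] [NumberField M] [Algebra K M] [IsGalois K M] (m : ℕ)
    (δ : M ≃ₐ[K] M) (ζ : k) (Φ : ℤ_[p][X]) (P : (ZMod p)[X]), PhiData p m ζ Φ P →
    orderOf δ = m → finrank K M = m → TorOK P δ →
  ∀ T : Set (K →+* k), PlaceClosed T → finrank ℚ K = 2 * T.ncard →
  ∀ (R : Set (HeightOneSpectrum (𝓞 M))) (al : HeightOneSpectrum (𝓞 M) → K), IsDat p R al →
    (∃ x : Mˣ, SelD L (above T) P δ R al x ∧ ¬ Pw p x) →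
  ∃ (R' : Set (HeightOneSpectrum (𝓞 M))) (al' : HeightOneSpectrum (𝓞 M) → K), IsDat p R' al' ∧
    (∀ x : Mˣ, SelD L (above T) P δ R' al' x → SelD L (above T) P δ R al x) ∧
    ∃ x : Mˣ, SelD L (above T) P δ R al x ∧ ¬ SelD L (above T) P δ R' al' x

/-- **D_COR** (the core theorem). There is a datum whose Selmer group consists of `p`-th powers.

PROOF (from `D_DSC`, `D_FIN`, `D_SLG`). Start from `R = ∅` (a datum, with any `al`). All elements of
`SelD` have valuations divisible by `p`, so by `D_FIN` there are at most `n` classes modulo `p`-th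
powers. As long as there is an element which is not a `p`-th power, `D_DSC` replaces the datum by
one with a strictly smaller Selmer group; these are subgroups containing the `p`-th powers
(`D_SLG`), so the finite number of classes modulo `p`-th powers decreases strictly. -/
def D_COR : Prop :=
  ∀ (p : ℕ) [Fact p.Prime] (k : Type) [NormedField k] [NormedAlgebra ℚ_[p] k]
    [IsUltrametricDist k] [CompleteSpace k], Nonempty (AlgebraicClosure ℚ →+* k) →
  ∀ (L : IwasawaLog p k) (K M : Type) [Field K] [NumberField K] [IsTotallyComplex K]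
    [Field M] [NumberField M] [Algebra K M] [IsGalois K M] (m : ℕ)
    (δ : M ≃ₐ[K] M) (ζ : k) (Φ : ℤ_[p][X]) (P : (ZMod p)[X]), PhiData p m ζ Φ P →
    orderOf δ = m → finrank K M = m → TorOK P δ →
  ∀ T : Set (K →+* k), PlaceClosed T → finrank ℚ K = 2 * T.ncard →
  ∃ (R : Set (HeightOneSpectrum (𝓞 M))) (al : HeightOneSpectrum (𝓞 M) → K), IsDat p R al ∧
    ∀ x : Mˣ, SelD L (above T) P δ R al x → Pw p x

end Pool.Agent.Helper42.RD
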